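import Mathlib
import Pool.Agent.H315R3.ETC.Gen
import Pool.Agent.Y920.ETC.Iter
import Pool.Agent.TH673.VG.Crit

set_option autoImplicit false
set_option linter.unusedSimpArgs false

/-! Quaternionic structures whose value groups `V(a)`, `a ≠ 1, -1`, have at most four elements. -/

namespace Pool.Agent.K3h83.ET

open Pool.Agent.H315R3.ETC Pool.Agent.Y920.ETC Pool.Agent.TH673.VG

/-- `q(a,b) = 0` -/
def O (S : QData) (a b : S.G) : Prop := S.q a b = S.zero

/-- `V(a)` is generated by `-a` and any other element -/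
def F4 (S : QData) (a : S.G) : Prop :=
  ∀ x y, O S a x → O S a y → x ≠ 1 → x ≠ S.neg * a →
    y = 1 ∨ y = S.neg * a ∨ y = x ∨ y = S.neg * a * x

section basic

variable {S : QData} (h : IsQuat S)
include h

lemma cancelL (a b : S.G) : a * (a * b) = b := by rw [← mul_assoc, h.exp2, one_mul]

lemma cb1 {A B L R : S.G} (e : L = R) (k : A * B * (L * R) = 1) : A = B := by
  subst e
  rw [h.exp2, mul_one] at k
  exact eq_of_mul h _ _ k

lemma cb2 {A B L R L' R' : S.G} (e : L = R) (e' : L' = R') (k : A * B * (L * R) * (L' * R') = 1) :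
    A = B := by
  subst e'
  rw [h.exp2, mul_one] at k
  exact cb1 h e k

lemma osymm {a b : S.G} (e : O S a b) : O S b a := (h.qs2 _ _).trans e

lemma omul {a b c : S.G} (e : O S a b) (e' : O S a c) : O S a (b * c) := p_mul h e e'

lemma omulL {a b c : S.G} (e : O S a c) (e' : O S b c) : O S (a * b) c :=
  osymm h (omul h (osymm h e) (osymm h e'))

lemma oneg (a : S.G) : O S a (S.neg * a) := h.qs1 a

lemma oneg' (a : S.G) : O S (S.neg * a) a := osymm h (oneg h a)

lemma o_one (a : S.G) : O S a 1 := q_one h a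

lemma one_o (a : S.G) : O S 1 a := osymm h (o_one h a)

omit h in
lemma oeq {a b c : S.G} (e : b = c) (k : O S a b) : O S a c := e ▸ k

/-- `q(a,b) = q(a,c)` gives `bc ∈ V(a)` -/
lemma oq {a b c : S.G} (e : S.q a b = S.q a c) : O S a (b * c) := (h.qs3 _ _ _).1 e

lemma qo {a b c : S.G} (e : O S a (b * c)) : S.q a b = S.q a c := (h.qs3 _ _ _).2 e

/-- `q(a,x) = q(b,x)` gives `ab ∈ V(x)` -/
lemma oqL {a b x : S.G} (e : S.q a x = S.q b x) : O S x (a * b) :=
  oq h ((h.qs2 _ _).trans (e.trans (h.qs2 _ _)))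

lemma qoL {a b x : S.G} (e : O S x (a * b)) : S.q a x = S.q b x :=
  (h.qs2 _ _).trans ((qo h e).trans (h.qs2 _ _))

/-- linkage -/
lemma link {a b c d : S.G} {t : S.Q} (e : S.q a b = t) (e' : S.q c d = t) :
    ∃ x, S.q a x = t ∧ S.q c x = t := by
  obtain ⟨x, h1, h2⟩ := h.qs4 a b c d (e.trans e'.symm)
  exact ⟨x, h1.symm.trans e, h2.symm.trans e'⟩

lemma sne {t : S.Q} (hl : ∀ a : S.G, S.q a a ≠ t) {v x : S.G} (hv : S.q v x = t) :
    v ≠ 1 ∧ v ≠ S.neg := by
  constructor
  · rintro rfl
    apply hl 1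
    rw [← hv, q_one h]
    exact (one_o h x).symm
  · rintro rfl
    apply hl x
    rw [← hv, h.qs2 S.neg x]
    apply qo h
    exact oeq (mul_comm _ _) (oneg h x)

end basic

section one

variable {S : QData} (h : IsQuat S)
include h

/-- the subgroup `±W`, `W = V(-1)` -/
def PW (S : QData) (a : S.G) : Prop := O S S.neg a ∨ O S S.neg (S.neg * a)

lemma pw_mul {a b : S.G} (ha : PW S a) (hb : PW S b) : PW S (a * b) := by
  rcases ha with ha | ha <;> rcases hb with hb | hb
  · exact Or.inl (omul h ha hb)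
  · exact Or.inr (oeq (by simp only [mul_comm, mul_left_comm, mul_assoc, h.exp2, cancelL h, mul_one, one_mul]) (omul h ha hb))
  · exact Or.inr (oeq (by simp only [mul_comm, mul_left_comm, mul_assoc, h.exp2, cancelL h, mul_one, one_mul]) (omul h ha hb))
  · refine Or.inl (oeq (by simp only [mul_comm, mul_left_comm, mul_assoc, h.exp2, cancelL h, mul_one, one_mul]) (omul h ha hb))

lemma pw_one : PW S 1 := Or.inl (o_one h _)

lemma pw_neg : PW S S.neg := Or.inr (oeq (h.exp2 _).symm (o_one h _))

variable (hn1 : S.neg ≠ 1) (hF : ∀ a : S.G, a ≠ 1 → a ≠ S.neg → F4 S a)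
include hn1 hF

/-- value groups of the elements of `W` -/
lemma vW {w : S.G} (hw : O S S.neg w) (h1 : w ≠ 1) (h2 : w ≠ S.neg) {y : S.G} (hy : O S w y) :
    y = 1 ∨ y = S.neg * w ∨ y = S.neg ∨ y = w := by
  have h3 : S.neg ≠ S.neg * w := fun e => h1 (cb1 h e (by simp only [mul_comm, mul_left_comm, mul_assoc, h.exp2, cancelL h, mul_one, one_mul]))
  rcases hF w h1 h2 S.neg y (osymm h hw) hy hn1 h3 with e | e | e | e
  · exact Or.inl e
  · exact Or.inr (Or.inl e)
  · exact Or.inr (Or.inr (Or.inl e))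
  · exact Or.inr (Or.inr (Or.inr (e.trans (by simp only [mul_comm, mul_left_comm, mul_assoc, h.exp2, cancelL h, mul_one, one_mul]))))

lemma vW_pw {w : S.G} (hw : O S S.neg w) (h1 : w ≠ 1) (h2 : w ≠ S.neg) {y : S.G} (hy : O S w y) :
    PW S y := by
  rcases vW h hn1 hF hw h1 h2 hy with rfl | rfl | rfl | rfl
  · exact pw_one h
  · exact pw_mul h (pw_neg h) (Or.inl hw)
  · exact pw_neg h
  · exact Or.inl hw

/-- the triangle case: two slots `a ≠ b`, `ab ≠ -1`, with `q(a,b) = 0` do not occur -/
lemma tri {t : S.Q} (hl : ∀ a : S.G, S.q a a ≠ t) {a b y : S.G} (hab : a ≠ b)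
    (hc1 : S.neg * a * b ≠ 1) (h0 : O S a b) (ha : S.q a y = t) (hb : S.q b y = t) : False := by
  have sa := sne h hl ha
  have sb := sne h hl hb
  have sy := sne h hl ((h.qs2 y a).trans ha)
  have hba : O S b a := osymm h h0
  have hab1 : a * b ≠ 1 := fun e => hab (eq_of_mul h _ _ e)
  have habn : a * b ≠ S.neg := fun e => hc1 (cb1 h e (by simp only [mul_comm, mul_left_comm, mul_assoc, h.exp2, cancelL h, mul_one, one_mul]))
  have hcn : S.neg * a * b ≠ S.neg := fun e => hab (cb1 h e (by simp only [mul_comm, mul_left_comm, mul_assoc, h.exp2, cancelL h, mul_one, one_mul]))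
  have hac : O S a (S.neg * a * b) := omul h (oneg h a) h0
  have hbc : O S b (S.neg * a * b) := oeq (by simp only [mul_comm, mul_left_comm, mul_assoc, h.exp2, cancelL h, mul_one, one_mul]) (omul h (oneg h b) hba)
  -- the slots `±ay` and `±by`
  have s1 : S.q b (a * y) = t := (q_shift h y hba).trans hb
  have s2 : S.q a (S.neg * a * y) = t := (q_shift h y (oneg h a)).trans ha
  have s3 : S.q a (b * y) = t := (q_shift h y h0).trans ha
  have s4 : S.q b (S.neg * b * y) = t := (q_shift h y (oneg h b)).trans hb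
  obtain ⟨y1, k1, k2⟩ := link h ((h.qs2 _ _).trans s1) ((h.qs2 _ _).trans s2)
  obtain ⟨y2, k3, k4⟩ := link h ((h.qs2 _ _).trans s3) ((h.qs2 _ _).trans s4)
  have w1 : O S S.neg y1 := osymm h (oeq (by simp only [mul_comm, mul_left_comm, mul_assoc, h.exp2, cancelL h, mul_one, one_mul]) (oqL h (k1.trans k2.symm)))
  have w2 : O S S.neg y2 := osymm h (oeq (by simp only [mul_comm, mul_left_comm, mul_assoc, h.exp2, cancelL h, mul_one, one_mul]) (oqL h (k3.trans k4.symm)))
  have k1' := (h.qs2 y1 (a * y)).trans k1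
  have k3' := (h.qs2 y2 (b * y)).trans k3
  have sy1 := sne h hl k1'
  have sy2 := sne h hl k3'
  obtain ⟨m, m1, m2⟩ := link h k1' k3'
  have p1 : PW S (a * y * m) := vW_pw h hn1 hF w1 sy1.1 sy1.2 (oq h (k1'.trans m1.symm))
  have p2 : PW S (b * y * m) := vW_pw h hn1 hF w2 sy2.1 sy2.2 (oq h (k3'.trans m2.symm))
  have p3 : PW S (a * b) := by
    have := pw_mul h p1 p2
    have e : a * y * m * (b * y * m) = a * b := by simp only [mul_comm, mul_left_comm, mul_assoc, h.exp2, cancelL h, mul_one, one_mul]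
    rwa [e] at this
  rcases p3 with p3 | p3
  · -- `-c ∈ W`
    have hy : O S (a * b) y := osymm h (oqL h (ha.trans hb.symm))
    have hyc : y ≠ S.neg * (a * b) := by
      intro e
      apply hl 1
      rw [← ha, e, q_one h]
      exact (oeq (by simp only [mul_comm, mul_left_comm, mul_assoc, h.exp2, cancelL h, mul_one, one_mul]) hac : O S a (S.neg * (a * b))).symm
    rcases hF (a * b) hab1 habn y S.neg hy (osymm h p3) sy.1 hyc with e | e | e | e
    · exact hn1 e
    · exact hab1 (cb1 h e (by simp only [mul_comm, mul_left_comm, mul_assoc, h.exp2, cancelL h, mul_one, one_mul]))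
    · exact sy.2 e.symm
    · have e1 : y = b * a := cb1 h e (by simp only [mul_comm, mul_left_comm, mul_assoc, h.exp2, cancelL h, mul_one, one_mul])
      apply hl a
      rw [← ha, e1]
      exact (q_shift h a h0).symm
  · -- `c ∈ W`
    have p4 : O S (S.neg * a * b) S.neg := osymm h (oeq (by simp only [mul_comm, mul_left_comm, mul_assoc, h.exp2, cancelL h, mul_one, one_mul]) p3)
    have hax : a ≠ S.neg * (S.neg * a * b) := fun e => sb.1 (cb1 h e (by simp only [mul_comm, mul_left_comm, mul_assoc, h.exp2, cancelL h, mul_one, one_mul]))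
    rcases hF _ hc1 hcn a S.neg (osymm h hac) p4 sa.1 hax with e | e | e | e
    · exact hn1 e
    · exact hc1 (cb1 h e (by simp only [mul_comm, mul_left_comm, mul_assoc, h.exp2, cancelL h, mul_one, one_mul]))
    · exact sa.2 e.symm
    · exact sb.2 (cb1 h e (by simp only [mul_comm, mul_left_comm, mul_assoc, h.exp2, cancelL h, mul_one, one_mul]))

/-- dependent slots lie in `W` -/
theorem L1 {t : S.Q} (hl : ∀ a : S.G, S.q a a ≠ t) (hI : ¬ Indep S t) :
    ∃ x y, S.q x y = t ∧ O S S.neg x ∧ O S S.neg y := by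
  unfold Indep at hI
  push Not at hI
  obtain ⟨x, z, hxz, ⟨x', hx'⟩, ⟨z', hz'⟩, d, hxd, hzd, hd1⟩ := hI
  obtain ⟨y, hx, hz⟩ := link h hx' hz'
  have sx := sne h hl hx
  have sz := sne h hl hz
  have sy := sne h hl ((h.qs2 y x).trans hx)
  have hz0 : t ≠ S.zero := fun e => hl 1 ((q_one h 1).trans e.symm)
  have hy : O S (x * z) y := osymm h (oqL h (hx.trans hz.symm))
  have hxz1 : x * z ≠ 1 := fun e => hxz (eq_of_mul h _ _ e)
  -- a first symmetric case
  have key : ∀ x z : S.G, x ≠ z → S.q x y = t → S.q z y = t → O S z (S.neg * x) →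
      ∃ x y, S.q x y = t ∧ O S S.neg x ∧ O S S.neg y := by
    intro x z hxz hx hz hzx
    have sx := sne h hl hx
    have sz := sne h hl hz
    have hy : O S (x * z) y := osymm h (oqL h (hx.trans hz.symm))
    have hxz1 : x * z ≠ 1 := fun e => hxz (eq_of_mul h _ _ e)
    by_cases e : z = S.neg * x
    · have hzz : O S z z := by
        have := hzx
        rwa [← e] at this
      have hzn : O S z S.neg := oeq (by simp only [mul_comm, mul_left_comm, mul_assoc, h.exp2, cancelL h, mul_one, one_mul]) (omul h (oneg h z) hzz)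
      refine ⟨z, y, hz, osymm h hzn, ?_⟩
      have e1 : x * z = S.neg := by rw [e]; simp only [mul_comm, mul_left_comm, mul_assoc, h.exp2, cancelL h, mul_one, one_mul]
      rwa [e1] at hy
    · exfalso
      have hxzn : x * z ≠ S.neg := fun e' => e (cb1 h e' (by simp only [mul_comm, mul_left_comm, mul_assoc, h.exp2, cancelL h, mul_one, one_mul]))
      have h1 : O S (x * z) (S.neg * x) := omulL h (oneg h x) hzx
      have h2 : S.neg * x ≠ 1 := fun e' => sx.2 (cb1 h e' (by simp only [mul_comm, mul_left_comm, mul_assoc, h.exp2, cancelL h, mul_one, one_mul]))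
      have h3 : S.neg * x ≠ S.neg * (x * z) := fun e' => sz.1 (cb1 h e' (by simp only [mul_comm, mul_left_comm, mul_assoc, h.exp2, cancelL h, mul_one, one_mul]))
      rcases hF (x * z) hxz1 hxzn (S.neg * x) y h1 hy h2 h3 with e' | e' | e' | e'
      · exact sy.1 e'
      · -- `y = -xz`
        apply hl z
        rw [← hz, e']
        have h4 : S.neg * (x * z) = S.neg * x * z := by simp only [mul_comm, mul_left_comm, mul_assoc, h.exp2, cancelL h, mul_one, one_mul]
        rw [h4]
        exact (q_shift h z hzx).symm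
      · subst e'
        exact hz0 (hx.symm.trans (oneg h x))
      · have h4 : y = z := cb1 h e' (by simp only [mul_comm, mul_left_comm, mul_assoc, h.exp2, cancelL h, mul_one, one_mul])
        rw [h4] at hz
        exact hl z hz
  by_cases hdn : d = S.neg
  · subst hdn
    have hxW : O S S.neg x := osymm h hxd
    have hzW : O S S.neg z := osymm h hzd
    by_cases e : x * z = S.neg
    · refine ⟨x, y, hx, hxW, ?_⟩
      rwa [e] at hy
    · have hW : O S S.neg (x * z) := omul h hxW hzW
      rcases vW h hn1 hF hW hxz1 e hy with e' | e' | e' | e'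
      · exact absurd e' sy.1
      · refine ⟨x, z, ?_, hxW, hzW⟩
        rw [← hx, e']
        have h4 : S.neg * (x * z) = S.neg * x * z := by simp only [mul_comm, mul_left_comm, mul_assoc, h.exp2, cancelL h, mul_one, one_mul]
        rw [h4]
        exact (q_shift h z (oneg h x)).symm
      · exact absurd e' sy.2
      · exact ⟨x, y, hx, hxW, e' ▸ hW⟩
  by_cases hx1 : d = S.neg * x
  · subst hx1
    exact key x z hxz hx hz hzd
  by_cases hz1 : d = S.neg * z
  · subst hz1
    exact key z x hxz.symm hz hx hxd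
  exfalso
  have hx2 : x ≠ S.neg * d := fun e => hx1 (cb1 h e (by simp only [mul_comm, mul_left_comm, mul_assoc, h.exp2, cancelL h, mul_one, one_mul]))
  have hd2 : d = S.neg * x * z := by
    rcases hF d hd1 hdn x z (osymm h hxd) (osymm h hzd) sx.1 hx2 with e | e | e | e
    · exact absurd e sz.1
    · exact absurd (cb1 h e (by simp only [mul_comm, mul_left_comm, mul_assoc, h.exp2, cancelL h, mul_one, one_mul])) hz1
    · exact absurd e.symm hxz
    · exact cb1 h e (by simp only [mul_comm, mul_left_comm, mul_assoc, h.exp2, cancelL h, mul_one, one_mul])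
  have h0 : O S x z := oeq (by rw [hd2]; simp only [mul_comm, mul_left_comm, mul_assoc, h.exp2, cancelL h, mul_one, one_mul]) (omul h (oneg h x) hxd)
  exact tri h hn1 hF hl hxz (fun e => hd1 (hd2.trans e)) h0 hx hz

/-- the slots of a quaternion `q(x,y)`, `x, y ∈ W`, which is not of the form `q(a,a)`, lie in `±W` -/
theorem L2 {t : S.Q} (hl : ∀ a : S.G, S.q a a ≠ t) {x y : S.G} (hxy : S.q x y = t)
    (hx : O S S.neg x) (hy : O S S.neg y) {z z' : S.G} (hz : S.q z z' = t) : PW S z := by
  by_contra hcon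
  have hyx : S.q y x = t := (h.qs2 _ _).trans hxy
  have sx := sne h hl hxy
  have sy := sne h hl hyx
  have sz := sne h hl hz
  have hxy1 : x * y ≠ 1 := by
    intro e
    apply hl x
    rw [← hxy, eq_of_mul h _ _ e]
  have hxyn : x * y ≠ S.neg := by
    intro e
    apply hl 1
    rw [← hxy, q_one h]
    have : y = S.neg * x := cb1 h e (by simp only [mul_comm, mul_left_comm, mul_assoc, h.exp2, cancelL h, mul_one, one_mul])
    rw [this]
    exact (oneg h x).symm
  have hW : O S S.neg (x * y) := omul h hx hy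
  have hxyx : S.q (x * y) x = t := by
    rw [h.qs2, mul_comm]
    refine (qo h ?_ : S.q x (y * x) = S.q x y).trans hxy
    have e : y * x * y = x := by simp only [mul_comm, mul_left_comm, mul_assoc, h.exp2, cancelL h, mul_one, one_mul]
    rw [e]
    exact oeq (by simp only [mul_comm, mul_left_comm, mul_assoc, h.exp2, cancelL h, mul_one, one_mul]) (omul h (oneg h x) (osymm h hx))
  -- orthogonality to one of `x, y, xy` is impossible
  have no : ∀ w : S.G, O S S.neg w → w ≠ 1 → w ≠ S.neg → ¬ O S w z := fun w hw h1 h2 hc =>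
    hcon (vW_pw h hn1 hF hw h1 h2 hc)
  -- the neighbours
  have nb : ∀ w v : S.G, O S S.neg w → O S S.neg v → S.q w v = t → w ≠ 1 → w ≠ S.neg →
      v ≠ 1 → v ≠ S.neg → w * v ≠ 1 → w * v ≠ S.neg →
      S.q z (S.neg * v) = t ∨ S.q z (S.neg * (w * v)) = t := by
    intro w v hw hv hwv hw1 hwn hv1 hvn hwv1 hwvn
    obtain ⟨m, m1, m2⟩ := link h hwv hz
    have h1 : O S w (v * m) := oq h (hwv.trans m1.symm)
    have h2 : O S m (w * z) := oqL h (m1.trans m2.symm)
    have hWwv : O S S.neg (w * v) := omul h hw hv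
    have bad : ∀ u : S.G, O S S.neg u → u ≠ 1 → u ≠ S.neg → ¬ O S u (w * z) := by
      intro u hu hu1 hun hc
      have p1 := vW_pw h hn1 hF hu hu1 hun hc
      have p2 := pw_mul h p1 (Or.inl hw : PW S w)
      have e : w * z * w = z := by simp only [mul_comm, mul_left_comm, mul_assoc, h.exp2, cancelL h, mul_one, one_mul]
      rw [e] at p2
      exact hcon p2
    rcases vW h hn1 hF hw hw1 hwn h1 with e | e | e | e
    · have : m = v := cb1 h e (by simp only [mul_comm, mul_left_comm, mul_assoc, h.exp2, cancelL h, mul_one, one_mul])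
      rw [this] at h2
      exact absurd h2 (bad v hv hv1 hvn)
    · have : m = S.neg * (w * v) := cb1 h e (by simp only [mul_comm, mul_left_comm, mul_assoc, h.exp2, cancelL h, mul_one, one_mul])
      rw [this] at m2
      exact Or.inr m2
    · have : m = S.neg * v := cb1 h e (by simp only [mul_comm, mul_left_comm, mul_assoc, h.exp2, cancelL h, mul_one, one_mul])
      rw [this] at m2
      exact Or.inl m2
    · have : m = w * v := cb1 h e (by simp only [mul_comm, mul_left_comm, mul_assoc, h.exp2, cancelL h, mul_one, one_mul])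
      rw [this] at h2
      exact absurd h2 (bad _ hWwv hwv1 hwvn)
  have two : ∀ u v : S.G, S.q z u = t → S.q z v = t → O S (u * v) z := fun u v hu hv =>
    osymm h (oq h (hu.trans hv.symm))
  have eyx : y * x = x * y := mul_comm _ _
  have exyx : x * y * x = y := by simp only [mul_comm, mul_left_comm, mul_assoc, h.exp2, cancelL h, mul_one, one_mul]
  have h1 := nb x y hx hy hxy sx.1 sx.2 sy.1 sy.2 hxy1 hxyn
  have h2 := nb y x hy hx hyx sy.1 sy.2 sx.1 sx.2 (by rwa [eyx]) (by rwa [eyx])
  have h3 := nb (x * y) x hW hx hxyx hxy1 hxyn sx.1 sx.2 (by rw [exyx]; exact sy.1)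
    (by rw [exyx]; exact sy.2)
  rw [eyx] at h2
  rw [exyx] at h3
  have c1 : S.neg * y * (S.neg * x) = x * y := by simp only [mul_comm, mul_left_comm, mul_assoc, h.exp2, cancelL h, mul_one, one_mul]
  have c2 : S.neg * y * (S.neg * (x * y)) = x := by simp only [mul_comm, mul_left_comm, mul_assoc, h.exp2, cancelL h, mul_one, one_mul]
  have c3 : S.neg * (x * y) * (S.neg * x) = y := by simp only [mul_comm, mul_left_comm, mul_assoc, h.exp2, cancelL h, mul_one, one_mul]
  rcases h1 with h1 | h1 <;> rcases h2 with h2 | h2 <;> rcases h3 with h3 | h3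
  · exact no _ hW hxy1 hxyn (c1 ▸ two _ _ h1 h2)
  · exact no _ hW hxy1 hxyn (c1 ▸ two _ _ h1 h2)
  · exact no _ hx sx.1 sx.2 (c2 ▸ two _ _ h1 h2)
  · exact no _ hx sx.1 sx.2 (c2 ▸ two _ _ h1 h2)
  · exact no _ hy sy.1 sy.2 (c3 ▸ two _ _ h1 h2)
  · exact no _ hy sy.1 sy.2 (c3 ▸ two _ _ h1 h2)
  · exact no _ hy sy.1 sy.2 (c3 ▸ two _ _ h1 h3)
  · exact no _ hx sx.1 sx.2 (c2 ▸ two _ _ h3 h1)

/-- two elements which are not rigid, one of them outside `±W` -/
theorem L3 [Finite S.G] {u v : S.G} (hu : ¬ Hr S u) (hv : ¬ Hr S v) (huW : ¬ PW S u) :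
    ∃ x y : S.G, O S u x ∧ O S (S.neg * u) y ∧ v = x * y := by
  by_cases hloop : ∃ a : S.G, S.q a a = S.q u v
  · obtain ⟨a, ha⟩ := hloop
    have h1 : S.q S.neg a = S.q u v := by
      rw [← ha, h.qs2]
      exact qo h (oneg h a)
    obtain ⟨z, z1, z2⟩ := link h rfl h1
    have h2 : O S u (v * z) := oq h z1.symm
    have h3 : O S z (S.neg * u) := oqL h (z2.trans z1.symm)
    exact ⟨v * z, z, h2, osymm h h3, by simp only [mul_comm, mul_left_comm, mul_assoc, h.exp2, cancelL h, mul_one, one_mul]⟩
  · exfalso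
    push Not at hloop
    by_cases hI : Indep S (S.q u v)
    · obtain ⟨w, hw⟩ := rigid_slots h hloop hI
      have e1 : u = w := by
        by_contra hc
        exact hu (hw u hc ⟨v, rfl⟩)
      have e2 : v = w := by
        by_contra hc
        exact hv (hw v hc ⟨u, h.qs2 _ _⟩)
      apply hloop u
      rw [e2, ← e1]
    · obtain ⟨x, y, h1, h2, h3⟩ := L1 h hn1 hF hloop hI
      exact huW (L2 h hn1 hF hloop h1 h2 h3 rfl)

/-- without birigid elements, one element outside `±W` which is not rigid: `G = V(u) V(-u)` -/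
theorem cover [Finite S.G] (hb : ∀ a : S.G, ¬ Bi S a) {u : S.G} (hu : ¬ Hr S u) (huW : ¬ PW S u)
    (g : S.G) : ∃ x y : S.G, O S u x ∧ O S (S.neg * u) y ∧ g = x * y := by
  have hneg : ∀ g : S.G, (∃ x y : S.G, O S u x ∧ O S (S.neg * u) y ∧ S.neg * g = x * y) →
      ∃ x y : S.G, O S u x ∧ O S (S.neg * u) y ∧ g = x * y := by
    rintro g ⟨x, y, hx, hy, e⟩
    exact ⟨S.neg * u * x, u * y, omul h (oneg h u) hx, omul h (oneg' h u) hy,
      cb1 h e (by simp only [mul_comm, mul_left_comm, mul_assoc, h.exp2, cancelL h, mul_one, one_mul])⟩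
  have h1 : ∃ x y : S.G, O S u x ∧ O S (S.neg * u) y ∧ (1 : S.G) = x * y :=
    ⟨1, 1, o_one h _, o_one h _, by simp only [mul_comm, mul_left_comm, mul_assoc, h.exp2, cancelL h, mul_one, one_mul]⟩
  by_cases g1 : g = 1
  · rw [g1]; exact h1
  by_cases g2 : g = S.neg
  · refine hneg g ?_
    rw [g2, h.exp2]
    exact h1
  by_cases g3 : Hr S g
  · refine hneg g (L3 h hn1 hF hu ?_ huW)
    intro g4
    exact hb g ⟨g1, g2, g3, g4⟩
  · exact L3 h hn1 hF hu g3 huW

end one

/-- a structure on at most sixteen elements is of elementary type -/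
theorem elem_small {S : QData} (h : IsQuat S) [Finite S.G] (hc : Nat.card S.G < 32) : Elem S := by
  refine elem_of_step h fun H hH _ => ?_
  by_cases hi : H.index < 8
  · exact stepTwo_of_step (step_of_index h H hH hi)
  by_cases h4 : Nat.card H < 4
  · exact stepTwo_of_card h H hH h4
  exfalso
  have := H.card_mul_index
  have h5 : 4 * 8 ≤ Nat.card H * H.index := Nat.mul_le_mul (by omega) (by omega)
  omega

/-- the rule for value groups with at most four elements -/
lemma f4_of_vs {S : QData} (h : IsQuat S) [Finite S.G] {a : S.G} (ha : a ≠ S.neg)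
    (hs : vs S a ≤ 4) : F4 S a := by
  classical
  intro x y hx hy hx1 hxa
  by_contra hcon
  push Not at hcon
  obtain ⟨c1, c2, c3, c4⟩ := hcon
  have hna : S.neg * a ≠ 1 := fun e => ha (cb1 h e (by simp only [mul_comm, mul_left_comm, mul_assoc, h.exp2, cancelL h, mul_one, one_mul]))
  have hsub : (({1, S.neg * a, x, S.neg * a * x, y} : Finset S.G) : Set S.G) ⊆
      {b : S.G | S.q a b = S.zero} := by
    intro d hd
    simp only [Finset.coe_insert, Finset.coe_singleton, Set.mem_insert_iff,
      Set.mem_singleton_iff] at hd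
    rcases hd with rfl | rfl | rfl | rfl | rfl
    · exact q_one h a
    · exact h.qs1 a
    · exact hx
    · exact omul h (oneg h a) hx
    · exact hy
  have hc := Set.ncard_le_ncard hsub (Set.toFinite _)
  rw [Set.ncard_coe_finset] at hc
  have e1 : S.neg * a * x ≠ 1 := fun e => hxa (cb1 h e (by simp only [mul_comm, mul_left_comm, mul_assoc, h.exp2, cancelL h, mul_one, one_mul]))
  have e2 : S.neg * a * x ≠ S.neg * a := fun e => hx1 (cb1 h e (by simp only [mul_comm, mul_left_comm, mul_assoc, h.exp2, cancelL h, mul_one, one_mul]))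
  have e3 : S.neg * a * x ≠ x := fun e => hna (cb1 h e (by simp only [mul_comm, mul_left_comm, mul_assoc, h.exp2, cancelL h, mul_one, one_mul]))
  have h5 : ({1, S.neg * a, x, S.neg * a * x, y} : Finset S.G).card = 5 := by
    rw [Finset.card_insert_of_notMem, Finset.card_insert_of_notMem, Finset.card_insert_of_notMem,
      Finset.card_insert_of_notMem, Finset.card_singleton]
    · simpa using Ne.symm c4
    · simp only [Finset.mem_insert, Finset.mem_singleton, not_or]
      exact ⟨e3.symm, Ne.symm c3⟩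
    · simp only [Finset.mem_insert, Finset.mem_singleton, not_or]
      exact ⟨Ne.symm hxa, e2.symm, Ne.symm c2⟩
    · simp only [Finset.mem_insert, Finset.mem_singleton, not_or]
      exact ⟨hna.symm, Ne.symm hx1, e1.symm, Ne.symm c1⟩
  rw [h5] at hc
  have h7 : vs S a = {b : S.G | S.q a b = S.zero}.ncard := rfl
  omega

section pmw

variable {S : QData} (h : IsQuat S)
include h

/-- few elements: an element of `W` outside a given set of four, if `G = ±W` is large -/
lemma exists_z [Finite S.G] (hc : 32 ≤ Nat.card S.G) (hall : ∀ g : S.G, PW S g) (a b c d : S.G) :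
    ∃ z, O S S.neg z ∧ z ≠ a ∧ z ≠ b ∧ z ≠ c ∧ z ≠ d := by
  classical
  by_contra hcon
  push Not at hcon
  have hsub : (Set.univ : Set S.G) ⊆ (({a, b, c, d, S.neg * a, S.neg * b, S.neg * c, S.neg * d} :
      Finset S.G) : Set S.G) := by
    intro g _
    simp only [Finset.coe_insert, Finset.coe_singleton, Set.mem_insert_iff,
      Set.mem_singleton_iff]
    have four : ∀ z, O S S.neg z → z = a ∨ z = b ∨ z = c ∨ z = d := by
      intro z hz
      by_contra hc'
      push Not at hc'
      exact hc'.2.2.2 (hcon z hz hc'.1 hc'.2.1 hc'.2.2.1)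
    rcases hall g with hg | hg
    · rcases four g hg with e | e | e | e
      · exact Or.inl e
      · exact Or.inr (Or.inl e)
      · exact Or.inr (Or.inr (Or.inl e))
      · exact Or.inr (Or.inr (Or.inr (Or.inl e)))
    · rcases four _ hg with e | e | e | e
      · exact Or.inr (Or.inr (Or.inr (Or.inr (Or.inl (cb1 h e (by simp only [mul_comm, mul_left_comm, mul_assoc, h.exp2, cancelL h, mul_one, one_mul]))))))
      · exact Or.inr (Or.inr (Or.inr (Or.inr (Or.inr (Or.inl (cb1 h e (by simp only [mul_comm, mul_left_comm, mul_assoc, h.exp2, cancelL h, mul_one, one_mul])))))))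
      · exact Or.inr (Or.inr (Or.inr (Or.inr (Or.inr (Or.inr (Or.inl (cb1 h e (by simp only [mul_comm, mul_left_comm, mul_assoc, h.exp2, cancelL h, mul_one, one_mul]))))))))
      · exact Or.inr (Or.inr (Or.inr (Or.inr (Or.inr (Or.inr (Or.inr (cb1 h e (by simp only [mul_comm, mul_left_comm, mul_assoc, h.exp2, cancelL h, mul_one, one_mul]))))))))
  have h1 := Set.ncard_le_ncard hsub (Set.toFinite _)
  rw [Set.ncard_univ, Set.ncard_coe_finset] at h1
  have h2 : ({a, b, c, d, S.neg * a, S.neg * b, S.neg * c, S.neg * d} : Finset S.G).card ≤ 8 := by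
    refine (Finset.card_insert_le _ _).trans ?_
    have h3 := Finset.card_insert_le b ({c, d, S.neg * a, S.neg * b, S.neg * c, S.neg * d} :
      Finset S.G)
    have h4 : ({c, d, S.neg * a, S.neg * b, S.neg * c, S.neg * d} : Finset S.G).card ≤ 6 :=
      Finset.card_le_six
    omega
  omega

variable (hn1 : S.neg ≠ 1) (hF : ∀ a : S.G, a ≠ 1 → a ≠ S.neg → F4 S a)
include hn1 hF

/-- if `G = ±W` is large and `-1 ∉ W` then the elements outside `W` are rigid -/
lemma rigid_out [Finite S.G] (hc : 32 ≤ Nat.card S.G) (hall : ∀ g : S.G, PW S g)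
    (hnn : ¬ O S S.neg S.neg) {w y : S.G} (hw : O S S.neg w) (hw1 : w ≠ 1)
    (hy : O S (S.neg * w) y) : y = 1 ∨ y = w := by
  have hWn : ∀ a : S.G, O S S.neg a → ¬ O S S.neg (S.neg * a) := fun a ha ha' =>
    hnn (oeq (by simp only [mul_comm, mul_left_comm, mul_assoc, h.exp2, cancelL h, mul_one, one_mul]) (omul h ha ha'))
  have hne : ∀ a : S.G, O S S.neg a → a ≠ S.neg := fun a ha e => hnn (e ▸ ha)
  by_contra hcon
  push Not at hcon
  obtain ⟨hy1, hyw⟩ := hcon
  rcases hall y with hy2 | hy2
  · have h1 : O S w y := by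
      have := omulL h hy hy2
      have e : S.neg * w * S.neg = w := by simp only [mul_comm, mul_left_comm, mul_assoc, h.exp2, cancelL h, mul_one, one_mul]
      rwa [e] at this
    rcases vW h hn1 hF hw hw1 (hne w hw) h1 with e | e | e | e
    · exact hy1 e
    · rw [e] at hy2
      exact hWn w hw hy2
    · exact hne y hy2 e
    · exact hyw e
  obtain ⟨v, hv⟩ : ∃ v, v = S.neg * y := ⟨_, rfl⟩
  have hyv : y = S.neg * v := by rw [hv]; simp only [mul_comm, mul_left_comm, mul_assoc, h.exp2, cancelL h, mul_one, one_mul]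
  rw [← hv] at hy2
  rw [hyv] at hy hy1 hyw
  clear hv hyv
  -- `O (nw) (nv)`
  have hv1 : v ≠ 1 := by
    rintro rfl
    rw [mul_one] at hy
    exact hWn w hw (osymm h hy)
  have hvw : v ≠ w := by
    rintro rfl
    have h1 : O S (S.neg * v) S.neg := oeq (by simp only [mul_comm, mul_left_comm, mul_assoc, h.exp2, cancelL h, mul_one, one_mul]) (omul h hy (oneg' h v))
    exact hWn v hw (osymm h h1)
  have hwv : O S S.neg (w * v) := omul h hw hy2
  obtain ⟨z, hz, z1, z2, z3, z4⟩ := exists_z h hc hall 1 w v (w * v)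
  have e0 : S.q w z = S.q (S.neg * w) z := qoL h (oeq (by simp only [mul_comm, mul_left_comm, mul_assoc, h.exp2, cancelL h, mul_one, one_mul]) (osymm h hz))
  have e1 : S.q (S.neg * w) (S.neg * v * z) = S.q w z := (q_shift h z hy).trans e0.symm
  obtain ⟨m, m1, m2⟩ := link h (rfl : S.q w z = S.q w z) ((h.qs2 _ _).trans e1)
  have h1 : O S w (z * m) := oq h m1.symm
  have h2 : O S m (w * (S.neg * v * z)) := oqL h (m1.trans m2.symm)
  have hwz : O S S.neg (w * z) := omul h hw hz
  have hwvz : O S S.neg (w * v * z) := omul h hwv hz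
  have zn := hne z hz
  rcases vW h hn1 hF hw hw1 (hne w hw) h1 with e | e | e | e
  · have : m = z := cb1 h e (by simp only [mul_comm, mul_left_comm, mul_assoc, h.exp2, cancelL h, mul_one, one_mul])
    rw [this] at h2
    rcases vW h hn1 hF hz z1 zn h2 with e | e | e | e
    · exact hne _ hwvz (cb1 h e (by simp only [mul_comm, mul_left_comm, mul_assoc, h.exp2, cancelL h, mul_one, one_mul]))
    · exact hvw (cb1 h e (by simp only [mul_comm, mul_left_comm, mul_assoc, h.exp2, cancelL h, mul_one, one_mul]))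
    · exact z4 (cb1 h e (by simp only [mul_comm, mul_left_comm, mul_assoc, h.exp2, cancelL h, mul_one, one_mul]))
    · exact hne _ hwv (cb1 h e (by simp only [mul_comm, mul_left_comm, mul_assoc, h.exp2, cancelL h, mul_one, one_mul]))
  · have : m = S.neg * (w * z) := cb1 h e (by simp only [mul_comm, mul_left_comm, mul_assoc, h.exp2, cancelL h, mul_one, one_mul])
    rw [this] at h2
    have h3 : O S (S.neg * (w * z)) (S.neg * v) :=
      oeq (by simp only [mul_comm, mul_left_comm, mul_assoc, h.exp2, cancelL h, mul_one, one_mul]) (omul h h2 (oneg' h (w * z)))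
    have k1 : S.neg * v ≠ 1 := fun e => hne v hy2 (cb1 h e (by simp only [mul_comm, mul_left_comm, mul_assoc, h.exp2, cancelL h, mul_one, one_mul]))
    have k2 : S.neg * v ≠ S.neg := fun e => hv1 (cb1 h e (by simp only [mul_comm, mul_left_comm, mul_assoc, h.exp2, cancelL h, mul_one, one_mul]))
    have k3 : S.neg * w ≠ 1 := fun e => hne w hw (cb1 h e (by simp only [mul_comm, mul_left_comm, mul_assoc, h.exp2, cancelL h, mul_one, one_mul]))
    have k4 : S.neg * w ≠ S.neg * (S.neg * v) := fun e => hne _ hwv (cb1 h e (by simp only [mul_comm, mul_left_comm, mul_assoc, h.exp2, cancelL h, mul_one, one_mul]))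
    rcases hF (S.neg * v) k1 k2 (S.neg * w) (S.neg * (w * z)) (osymm h hy) (osymm h h3) k3 k4
      with e | e | e | e
    · exact hne _ hwz (cb1 h e (by simp only [mul_comm, mul_left_comm, mul_assoc, h.exp2, cancelL h, mul_one, one_mul]))
    · exact hne _ hwvz (cb1 h e (by simp only [mul_comm, mul_left_comm, mul_assoc, h.exp2, cancelL h, mul_one, one_mul]))
    · exact z1 (cb1 h e (by simp only [mul_comm, mul_left_comm, mul_assoc, h.exp2, cancelL h, mul_one, one_mul]))
    · exact z3 (cb1 h e (by simp only [mul_comm, mul_left_comm, mul_assoc, h.exp2, cancelL h, mul_one, one_mul]))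
  · have : m = S.neg * z := cb1 h e (by simp only [mul_comm, mul_left_comm, mul_assoc, h.exp2, cancelL h, mul_one, one_mul])
    rw [this] at h2
    have h3 : O S (S.neg * z) (S.neg * (w * v)) :=
      oeq (by simp only [mul_comm, mul_left_comm, mul_assoc, h.exp2, cancelL h, mul_one, one_mul]) (omul h h2 (oneg' h z))
    have k1 : S.neg * (w * v) ≠ 1 := fun e => hne _ hwv (cb1 h e (by simp only [mul_comm, mul_left_comm, mul_assoc, h.exp2, cancelL h, mul_one, one_mul]))
    have k2 : S.neg * (w * v) ≠ S.neg := fun e => hvw (cb1 h e (by simp only [mul_comm, mul_left_comm, mul_assoc, h.exp2, cancelL h, mul_one, one_mul]))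
    have k3 : S.neg * w ≠ 1 := fun e => hne w hw (cb1 h e (by simp only [mul_comm, mul_left_comm, mul_assoc, h.exp2, cancelL h, mul_one, one_mul]))
    have k4 : S.neg * w ≠ S.neg * (S.neg * (w * v)) := fun e => hne _ hy2 (cb1 h e (by simp only [mul_comm, mul_left_comm, mul_assoc, h.exp2, cancelL h, mul_one, one_mul]))
    have k5 : O S (S.neg * (w * v)) (S.neg * w) :=
      osymm h (oeq (by simp only [mul_comm, mul_left_comm, mul_assoc, h.exp2, cancelL h, mul_one, one_mul]) (omul h hy (oneg' h w)))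
    rcases hF (S.neg * (w * v)) k1 k2 (S.neg * w) (S.neg * z) k5 (osymm h h3) k3 k4
      with e | e | e | e
    · exact zn (cb1 h e (by simp only [mul_comm, mul_left_comm, mul_assoc, h.exp2, cancelL h, mul_one, one_mul]))
    · exact hne _ hwvz (cb1 h e (by simp only [mul_comm, mul_left_comm, mul_assoc, h.exp2, cancelL h, mul_one, one_mul]))
    · exact z2 (cb1 h e (by simp only [mul_comm, mul_left_comm, mul_assoc, h.exp2, cancelL h, mul_one, one_mul]))
    · exact z3 (cb1 h e (by simp only [mul_comm, mul_left_comm, mul_assoc, h.exp2, cancelL h, mul_one, one_mul]))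
  · have : m = w * z := cb1 h e (by simp only [mul_comm, mul_left_comm, mul_assoc, h.exp2, cancelL h, mul_one, one_mul])
    rw [this] at h2
    have wz1 : w * z ≠ 1 := fun e => z2 (cb1 h e (by simp only [mul_comm, mul_left_comm, mul_assoc, h.exp2, cancelL h, mul_one, one_mul]))
    rcases vW h hn1 hF hwz wz1 (hne _ hwz) h2 with e | e | e | e
    · exact hne _ hwvz (cb1 h e (by simp only [mul_comm, mul_left_comm, mul_assoc, h.exp2, cancelL h, mul_one, one_mul]))
    · exact hv1 (cb1 h e (by simp only [mul_comm, mul_left_comm, mul_assoc, h.exp2, cancelL h, mul_one, one_mul]))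
    · exact z4 (cb1 h e (by simp only [mul_comm, mul_left_comm, mul_assoc, h.exp2, cancelL h, mul_one, one_mul]))
    · exact hne _ hy2 (cb1 h e (by simp only [mul_comm, mul_left_comm, mul_assoc, h.exp2, cancelL h, mul_one, one_mul]))

/-- the case `G = ±W` -/
theorem elem_pmw [Finite S.G] (hc : 32 ≤ Nat.card S.G) (hall : ∀ g : S.G, PW S g) : Elem S := by
  refine elem_of_step h fun H hH hI => stepTwo_of_step ?_
  have hnH : S.neg ∈ H := by
    apply hI
    intro x y
    by_cases h1 : S.q S.neg x = S.zero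
    · exact Or.inl h1
    by_cases h2 : S.q S.neg y = S.zero
    · exact Or.inr (Or.inl h2)
    right; right
    have h3 := (hall x).resolve_left h1
    have h4 := (hall y).resolve_left h2
    exact oeq (by simp only [mul_comm, mul_left_comm, mul_assoc, h.exp2, cancelL h, mul_one, one_mul]) (omul h h3 h4)
  obtain ⟨a, ha, haW⟩ : ∃ a, a ∉ H ∧ O S S.neg a := by
    obtain ⟨g, hg⟩ : ∃ g, g ∉ H := by
      by_contra hc'
      push Not at hc'
      exact hH (eq_top_iff.2 fun x _ => hc' x)
    rcases hall g with hw | hw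
    · exact ⟨g, hg, hw⟩
    · exact ⟨S.neg * g, fun hc' => hg (by
        have := H.mul_mem hnH hc'
        rwa [cancelL h] at this), hw⟩
  refine ⟨a, ha, fun k hk x hx => ?_⟩
  have hb : a * k ∉ H := fun hc' => ha (by
    have := H.mul_mem hc' hk
    rwa [mul_cancel h] at this)
  have hb1 : a * k ≠ 1 := fun e => hb (e ▸ H.one_mem)
  have hbn : a * k ≠ S.neg := fun e => hb (e ▸ hnH)
  -- the elements of `⟨-b⟩ ⟨-1⟩`
  have r1 : x = 1 → ∃ v k' : S.G, S.q a v = S.zero ∧ k' ∈ H ∧ v * k' = x := fun e =>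
    ⟨1, 1, o_one h a, H.one_mem, by rw [e, mul_one]⟩
  have r2 : x = S.neg * (a * k) → ∃ v k' : S.G, S.q a v = S.zero ∧ k' ∈ H ∧ v * k' = x := fun e =>
    ⟨S.neg * a, k, oneg h a, hk, by rw [e, mul_assoc]⟩
  rcases hall (a * k) with hW | hW
  · rcases vW h hn1 hF hW hb1 hbn hx with e | e | e | e
    · exact r1 e
    · exact r2 e
    · exact ⟨1, S.neg, o_one h a, hnH, by rw [e, one_mul]⟩
    · exact ⟨S.neg * a, S.neg * k, oneg h a, H.mul_mem hnH hk, by rw [e]; simp only [mul_comm, mul_left_comm, mul_assoc, h.exp2, cancelL h, mul_one, one_mul]⟩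
  · by_cases hnn : O S S.neg S.neg
    · have hW' : O S S.neg (a * k) := oeq (by simp only [mul_comm, mul_left_comm, mul_assoc, h.exp2, cancelL h, mul_one, one_mul]) (omul h hnn hW)
      rcases vW h hn1 hF hW' hb1 hbn hx with e | e | e | e
      · exact r1 e
      · exact r2 e
      · exact ⟨1, S.neg, o_one h a, hnH, by rw [e, one_mul]⟩
      · exact ⟨S.neg * a, S.neg * k, oneg h a, H.mul_mem hnH hk, by rw [e]; simp only [mul_comm, mul_left_comm, mul_assoc, h.exp2, cancelL h, mul_one, one_mul]⟩
    · have hw1 : S.neg * (a * k) ≠ 1 := fun e => hbn (cb1 h e (by simp only [mul_comm, mul_left_comm, mul_assoc, h.exp2, cancelL h, mul_one, one_mul]))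
      have hx' : O S (S.neg * (S.neg * (a * k))) x := by
        rw [cancelL h]; exact hx
      rcases rigid_out h hn1 hF hc hall hnn hW hw1 hx' with e | e
      · exact r1 e
      · exact r2 e

end pmw

section induct

/-- no birigid elements: `G` is small or `G = ±W` -/
theorem no_bi {S : QData} (h : IsQuat S) [Finite S.G] (hn1 : S.neg ≠ 1)
    (hN : ∀ a : S.G, a ≠ 1 → a ≠ S.neg → vs S a ≤ 4) (hb : ∀ a : S.G, ¬ Bi S a) :
    Nat.card S.G < 32 ∨ ∀ g : S.G, PW S g := by
  classical
  have hF : ∀ a : S.G, a ≠ 1 → a ≠ S.neg → F4 S a := fun a h1 h2 => f4_of_vs h h2 (hN a h1 h2)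
  by_cases hex : ∃ u : S.G, ¬ Hr S u ∧ ¬ PW S u
  · left
    obtain ⟨u, hu, huW⟩ := hex
    have hcov := cover h hn1 hF hb hu huW
    have hu1 : u ≠ 1 := fun e => huW (e ▸ pw_one h)
    have hun : u ≠ S.neg := fun e => huW (e ▸ pw_neg h)
    have hs1 : vs S u ≤ 4 := hN u hu1 hun
    have hs2 : vs S (S.neg * u) ≤ 4 := hN _ (fun e => hun (cb1 h e (by simp only [mul_comm, mul_left_comm, mul_assoc, h.exp2, cancelL h, mul_one, one_mul])))
      (fun e => hu1 (cb1 h e (by simp only [mul_comm, mul_left_comm, mul_assoc, h.exp2, cancelL h, mul_one, one_mul])))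
    have hsurj : Function.Surjective (fun p : {b : S.G | S.q u b = S.zero} ×
        {b : S.G | S.q (S.neg * u) b = S.zero} => (p.1 : S.G) * p.2) := by
      intro g
      obtain ⟨x, y, hx, hy, e⟩ := hcov g
      exact ⟨(⟨x, hx⟩, ⟨y, hy⟩), e.symm⟩
    have hcard := Nat.card_le_card_of_surjective _ hsurj
    rw [Nat.card_prod] at hcard
    have e1 : Nat.card {b : S.G | S.q u b = S.zero} = vs S u := rfl
    have e2 : Nat.card {b : S.G | S.q (S.neg * u) b = S.zero} = vs S (S.neg * u) := rfl
    rw [e1, e2] at hcard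
    have := Nat.mul_le_mul hs1 hs2
    omega
  · right
    push Not at hex
    intro g
    by_cases g1 : g = 1
    · rw [g1]; exact pw_one h
    by_cases g2 : g = S.neg
    · rw [g2]; exact pw_neg h
    by_cases g3 : Hr S g
    · have : ¬ Hr S (S.neg * g) := fun g4 => hb g ⟨g1, g2, g3, g4⟩
      have h2 := pw_mul h (pw_neg h) (hex _ this)
      rwa [cancelL h] at h2
    · exact hex g g3

/-- value groups `V(a)`, `a ≠ 1, -1`, with at most four elements -/
theorem elem_four : ∀ n : ℕ, ∀ S : QData, IsQuat S → Finite S.G → Nat.card S.G ≤ n →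
    (∀ a : S.G, a ≠ 1 → a ≠ S.neg → vs S a ≤ 4) → Elem S := by
  intro n
  induction n with
  | zero =>
    intro S h hf hc
    have : 0 < Nat.card S.G := Nat.card_pos
    omega
  | succ n ih =>
    intro S h hf hc hN
    by_cases hn1 : S.neg = 1
    · refine main S h hf hn1 (trans_of_small h hn1 hf fun a ha => ?_)
      exact hN a ha (by rwa [hn1])
    by_cases hb : ∃ b, Bi S b
    · obtain ⟨b, hb⟩ := hb
      obtain ⟨B, hB⟩ := Pool.Agent.Y67.ET.t_BASIC S h
      have hbB : b ∉ B := fun hc => (hB b).1 hc hb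
      obtain ⟨K, hBK, hbK, hK⟩ := split h.exp2 B b hbB
      have hneg : S.neg ∈ K := hBK ((hB _).2 fun hb => hb.2.1 rfl)
      have hout : ∀ a : S.G, a ∉ K → Bi S a := fun a ha => by
        by_contra hc
        exact ha (hBK ((hB a).2 hc))
      obtain ⟨h1, h2⟩ := Pool.Agent.Y781.ET.t_EXT S h K b hneg hbK hK hout
      have hc2 := card_two h K b hbK hK
      have hpos : 0 < Nat.card K := Nat.card_pos
      refine Elem.iso _ _ (Elem.ext _ (ih (restrN S K hneg) h1 (inferInstanceAs (Finite K)) ?_ ?_))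
        h2
      · show Nat.card K ≤ n
        omega
      · intro (a : K) ha ha'
        rw [vs_restrN h K hneg hout a ha]
        exact hN _ (fun e => ha (Subtype.ext e)) (fun e => ha' (Subtype.ext e))
    · push Not at hb
      have hF : ∀ a : S.G, a ≠ 1 → a ≠ S.neg → F4 S a :=
        fun a h1 h2 => f4_of_vs h h2 (hN a h1 h2)
      by_cases hc32 : Nat.card S.G < 32
      · exact elem_small h hc32
      · exact elem_pmw h hn1 hF (by omega) ((no_bi h hn1 hN hb).resolve_left hc32)

end induct

end Pool.Agent.K3h83.ET
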