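import Mathlib
import Pool.Agent.K3h83.ET.Four

set_option autoImplicit false
set_option linter.unusedSimpArgs false

/-! Quaternionic structures whose value groups `V(a)`, `a ≠ 1, -1`, have at most four elements or
index at most two. -/

namespace Pool.Agent.K3h83.ET

open Pool.Agent.H315R3.ETC Pool.Agent.Y920.ETC Pool.Agent.TH673.VG

section half

variable {S : QData} (h : IsQuat S) (H : Subgroup S.G)

/-- `V(b) ⊆ H ∪ -bH` -/
def Good (S : QData) (H : Subgroup S.G) (b : S.G) : Prop :=
  ∀ x, O S b x → x ∈ H ∨ S.neg * b * x ∈ H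

variable (hF : ∀ a : S.G, a ∉ H → a ≠ S.neg → F4 S a)

include h hF in
lemma good1 {b e : S.G} (hb : b ∉ H) (hnb : S.neg * b ∉ H) (he : e ∈ H) (he1 : e ≠ 1)
    (hbe : O S b e) : Good S H b := by
  intro x hx
  have hbn : b ≠ S.neg := by
    rintro rfl
    exact hnb (by rw [h.exp2]; exact H.one_mem)
  rcases hF b hb hbn e x hbe hx he1 (fun e' => hnb (e' ▸ he)) with e' | e' | e' | e'
  · left; rw [e']; exact H.one_mem
  · right; rw [e', h.exp2]; exact H.one_mem
  · left; rw [e']; exact he
  · right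
    have : S.neg * b * x = e := by rw [e']; simp only [mul_comm, mul_left_comm, mul_assoc, h.exp2, cancelL h, mul_one, one_mul]
    rw [this]; exact he

variable {c : S.G} (hc1 : c ≠ 1) (hcn : c ≠ S.neg) (hcI : IndexTwo S c) (hcH : c ∈ H)
variable (hG : 32 ≤ Nat.card S.G) (hidx : 8 ≤ H.index)

include h hcI in
lemma card_idx [Finite S.G] : Nat.card S.G ≤ 2 * {v : S.G | O S c v}.ncard := by
  classical
  by_cases hall : ∀ g : S.G, O S c g
  · have : {v : S.G | O S c v} = Set.univ := by
      ext g; simp [hall g]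
    rw [this, Set.ncard_univ]
    omega
  · push Not at hall
    obtain ⟨g0, hg0⟩ := hall
    have hsub : (Set.univ : Set S.G) ⊆ {v : S.G | O S c v} ∪ (g0 * ·) '' {v : S.G | O S c v} := by
      intro g _
      by_cases hg : O S c g
      · exact Or.inl hg
      · right
        refine ⟨g0 * g, ?_, cancelL h _ _⟩
        rcases hcI g0 g with e | e | e
        · exact absurd e hg0
        · exact absurd e hg
        · exact e
    have h1 := (Set.ncard_le_ncard hsub (Set.toFinite _)).trans (Set.ncard_union_le _ _)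
    have h2 : ((g0 * ·) '' {v : S.G | O S c v}).ncard ≤ {v : S.G | O S c v}.ncard :=
      Set.ncard_image_le (Set.toFinite _)
    rw [Set.ncard_univ] at h1
    omega

include h hcI hG hidx in
/-- a generic element of `V(c)` -/
lemma exists_v [Finite S.G] (b e1 e2 e3 e4 e5 : S.G) :
    ∃ v, O S c v ∧ v ∉ H ∧ S.neg * b * v ∉ H ∧ v ≠ e1 ∧ v ≠ e2 ∧ v ≠ e3 ∧ v ≠ e4 ∧ v ≠ e5 := by
  classical
  by_contra hcon
  push Not at hcon
  have hsub : {v : S.G | O S c v} ⊆ ((H : Set S.G) ∪ (S.neg * b * ·) '' (H : Set S.G)) ∪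
      (({e1, e2, e3, e4, e5} : Finset S.G) : Set S.G) := by
    intro v hv
    by_contra hc
    simp only [Set.mem_union, not_or, Finset.coe_insert, Finset.coe_singleton,
      Set.mem_insert_iff, Set.mem_singleton_iff] at hc
    obtain ⟨⟨k1, k2⟩, k3, k4, k5, k6, k7⟩ := hc
    refine k7 (hcon v hv k1 ?_ k3 k4 k5 k6)
    intro hk
    exact k2 ⟨_, hk, by
      show S.neg * b * (S.neg * b * v) = v
      exact cancelL h _ _⟩
  have h1 := (Set.ncard_le_ncard hsub (Set.toFinite _)).trans (Set.ncard_union_le _ _)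
  have h2 := Set.ncard_union_le (H : Set S.G) ((S.neg * b * ·) '' (H : Set S.G))
  have h3 : ((S.neg * b * ·) '' (H : Set S.G)).ncard ≤ (H : Set S.G).ncard :=
    Set.ncard_image_le (Set.toFinite _)
  rw [Set.ncard_coe_finset] at h1
  have h4 : ({e1, e2, e3, e4, e5} : Finset S.G).card ≤ 5 := Finset.card_le_five
  have h5 := card_idx h hcI
  have h6 : (H : Set S.G).ncard = Nat.card H := rfl
  have h7 := H.card_mul_index
  have h8 : Nat.card H * 8 ≤ Nat.card H * H.index := Nat.mul_le_mul_left _ hidx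
  omega

include h hF hcH in
/-- the case where `V(b)` meets `V(c)` outside `{1,-b}` -/
lemma alpha {b x : S.G} (hb : b ∉ H) (hx : x ∉ H) (hz : S.neg * b * x ∉ H) (hbx : O S b x)
    (hc1 : c ≠ 1) (hcx : O S c x) : x = S.neg ∨ x = S.neg * c := by
  by_contra hcon
  push Not at hcon
  obtain ⟨n1, n2⟩ := hcon
  rcases hF x hx n1 c b (osymm h hcx) (osymm h hbx) hc1
    (fun e => n2 (cb1 h e (by simp only [mul_comm, mul_left_comm, mul_assoc, h.exp2, cancelL h, mul_one, one_mul]))) with e | e | e | e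
  · exact hb (e ▸ H.one_mem)
  · apply hz
    have : S.neg * b * x = 1 := by rw [e]; simp only [mul_comm, mul_left_comm, mul_assoc, h.exp2, cancelL h, mul_one, one_mul]
    rw [this]; exact H.one_mem
  · exact hb (e ▸ hcH)
  · apply hz
    have : S.neg * b * x = c := by rw [e]; simp only [mul_comm, mul_left_comm, mul_assoc, h.exp2, cancelL h, mul_one, one_mul]
    rw [this]; exact hcH

include h hF hc1 hcI hcH hG hidx in
/-- the main case -/
lemma beta [Finite S.G] {b x : S.G} (hb : b ∉ H) (hnb : S.neg * b ∉ H) (hx : x ∉ H)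
    (hz : S.neg * b * x ∉ H) (hbx : O S b x) (hxn : x ≠ S.neg) (hzn : S.neg * b * x ≠ S.neg)
    (hcb : ¬ O S c b) (hcnb : O S c (S.neg * b)) : False := by
  have b1 : b ≠ 1 := fun e => hb (e ▸ H.one_mem)
  have x1 : x ≠ 1 := fun e => hx (e ▸ H.one_mem)
  have z1 : S.neg * b * x ≠ 1 := fun e => hz (e ▸ H.one_mem)
  have bn : b ≠ S.neg := by
    rintro rfl
    exact hnb (by rw [h.exp2]; exact H.one_mem)
  obtain ⟨v, hcv, v1, v2, n1, n2, n3, n4, n5⟩ := exists_v h H hcI hG hidx b
    (S.neg * c) (b * c * x) (b * x) (b * c) (c * x)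
  have vn : v ≠ S.neg := by
    rintro rfl
    -- `O c n` and `O c (nb)` give `O c b`
    exact hcb (oeq (by simp only [mul_comm, mul_left_comm, mul_assoc, h.exp2, cancelL h, mul_one, one_mul]) (omul h hcv hcnb))
  have bcH : b * c ∉ H := fun hc => hb (by
    have := H.mul_mem hc hcH
    rwa [mul_cancel h] at this)
  have bcn : b * c ≠ S.neg := fun e => hnb (by
    have : S.neg * b = c := cb1 h e (by simp only [mul_comm, mul_left_comm, mul_assoc, h.exp2, cancelL h, mul_one, one_mul])
    rw [this]; exact hcH)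
  have hcbc : O S c (b * c) := oeq (by simp only [mul_comm, mul_left_comm, mul_assoc, h.exp2, cancelL h, mul_one, one_mul]) (omul h hcnb (oneg h c))
  -- slots
  have t1 : S.q (b * c) v = S.q b v := qoL h (oeq (by simp only [mul_comm, mul_left_comm, mul_assoc, h.exp2, cancelL h, mul_one, one_mul]) (osymm h hcv))
  have t2 : S.q (x * v) b = S.q b v := (h.qs2 _ _).trans (q_shift h v hbx)
  obtain ⟨y, y1, y2⟩ := link h t1 t2
  have k1 : O S (b * c) (v * y) := oq h (t1.trans y1.symm)
  have k2 : O S y (b * c * (x * v)) := oqL h (y1.trans y2.symm)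
  have bcc : c ≠ S.neg * (b * c) := fun e => bn (cb1 h e (by simp only [mul_comm, mul_left_comm, mul_assoc, h.exp2, cancelL h, mul_one, one_mul]))
  rcases hF (b * c) bcH bcn c (v * y) (osymm h hcbc) k1 hc1 bcc with e | e | e | e
  · -- `y = v`
    have : y = v := cb1 h e (by simp only [mul_comm, mul_left_comm, mul_assoc, h.exp2, cancelL h, mul_one, one_mul])
    rw [this] at k2
    rcases hF v v1 vn c _ (osymm h hcv) k2 hc1 (fun e => n1 (cb1 h e (by simp only [mul_comm, mul_left_comm, mul_assoc, h.exp2, cancelL h, mul_one, one_mul])))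
      with e | e | e | e
    · exact n2 (cb1 h e (by simp only [mul_comm, mul_left_comm, mul_assoc, h.exp2, cancelL h, mul_one, one_mul]))
    · apply hz
      have : S.neg * b * x = c := cb1 h e (by simp only [mul_comm, mul_left_comm, mul_assoc, h.exp2, cancelL h, mul_one, one_mul])
      rw [this]; exact hcH
    · exact n3 (cb1 h e (by simp only [mul_comm, mul_left_comm, mul_assoc, h.exp2, cancelL h, mul_one, one_mul]))
    · exact z1 (cb1 h e (by simp only [mul_comm, mul_left_comm, mul_assoc, h.exp2, cancelL h, mul_one, one_mul]))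
  · -- `y = -bcv`
    have : y = S.neg * (b * c) * v := cb1 h e (by simp only [mul_comm, mul_left_comm, mul_assoc, h.exp2, cancelL h, mul_one, one_mul])
    rw [this] at k2
    have k3 : O S x (S.neg * (b * c) * v) := by
      have k4 := omul h k2 (oneg h (S.neg * (b * c) * v))
      have e' : b * c * (x * v) * (S.neg * (S.neg * (b * c) * v)) = x := by simp only [mul_comm, mul_left_comm, mul_assoc, h.exp2, cancelL h, mul_one, one_mul]
      rw [e'] at k4
      exact osymm h k4
    have bx : b ≠ S.neg * x := fun e => z1 (cb1 h e (by simp only [mul_comm, mul_left_comm, mul_assoc, h.exp2, cancelL h, mul_one, one_mul]))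
    rcases hF x hx hxn b _ (osymm h hbx) k3 b1 bx with e | e | e | e
    · apply v2
      have : S.neg * b * v = c := cb1 h e (by simp only [mul_comm, mul_left_comm, mul_assoc, h.exp2, cancelL h, mul_one, one_mul])
      rw [this]; exact hcH
    · exact n2 (cb1 h e (by simp only [mul_comm, mul_left_comm, mul_assoc, h.exp2, cancelL h, mul_one, one_mul]))
    · exact n1 (cb1 h e (by simp only [mul_comm, mul_left_comm, mul_assoc, h.exp2, cancelL h, mul_one, one_mul]))
    · exact n5 (cb1 h e (by simp only [mul_comm, mul_left_comm, mul_assoc, h.exp2, cancelL h, mul_one, one_mul]))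
  · -- `y = cv`
    have : y = c * v := cb1 h e (by simp only [mul_comm, mul_left_comm, mul_assoc, h.exp2, cancelL h, mul_one, one_mul])
    rw [this] at k2
    have k3 : O S (S.neg * b * x) (c * v) := by
      have k4 := omul h k2 (oneg h (c * v))
      have e' : b * c * (x * v) * (S.neg * (c * v)) = S.neg * b * x := by simp only [mul_comm, mul_left_comm, mul_assoc, h.exp2, cancelL h, mul_one, one_mul]
      rw [e'] at k4
      exact osymm h k4
    have k5 : O S (S.neg * b * x) b := osymm h (omul h (oneg h b) hbx)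
    have bx : b ≠ S.neg * (S.neg * b * x) := fun e => x1 (cb1 h e (by simp only [mul_comm, mul_left_comm, mul_assoc, h.exp2, cancelL h, mul_one, one_mul]))
    rcases hF _ hz hzn b _ k5 k3 b1 bx with e | e | e | e
    · apply v1
      have : v = c := cb1 h e (by simp only [mul_comm, mul_left_comm, mul_assoc, h.exp2, cancelL h, mul_one, one_mul])
      rw [this]; exact hcH
    · exact n2 (cb1 h e (by simp only [mul_comm, mul_left_comm, mul_assoc, h.exp2, cancelL h, mul_one, one_mul]))
    · exact n4 (cb1 h e (by simp only [mul_comm, mul_left_comm, mul_assoc, h.exp2, cancelL h, mul_one, one_mul]))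
    · exact n5 (cb1 h e (by simp only [mul_comm, mul_left_comm, mul_assoc, h.exp2, cancelL h, mul_one, one_mul]))
  · -- `y = -bv`
    have : y = S.neg * b * v := cb1 h e (by simp only [mul_comm, mul_left_comm, mul_assoc, h.exp2, cancelL h, mul_one, one_mul])
    rw [this] at k2
    have vb : S.neg * b * v ≠ S.neg := fun e => hcb (by
      have : v = b := cb1 h e (by simp only [mul_comm, mul_left_comm, mul_assoc, h.exp2, cancelL h, mul_one, one_mul])
      rwa [this] at hcv)
    rcases hF _ v2 vb c _ (osymm h (omul h hcnb hcv)) k2 hc1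
      (fun e => n4 (cb1 h e (by simp only [mul_comm, mul_left_comm, mul_assoc, h.exp2, cancelL h, mul_one, one_mul]))) with e | e | e | e
    · exact n2 (cb1 h e (by simp only [mul_comm, mul_left_comm, mul_assoc, h.exp2, cancelL h, mul_one, one_mul]))
    · apply hx
      have : x = c := cb1 h e (by simp only [mul_comm, mul_left_comm, mul_assoc, h.exp2, cancelL h, mul_one, one_mul])
      rw [this]; exact hcH
    · exact n3 (cb1 h e (by simp only [mul_comm, mul_left_comm, mul_assoc, h.exp2, cancelL h, mul_one, one_mul]))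
    · exact x1 (cb1 h e (by simp only [mul_comm, mul_left_comm, mul_assoc, h.exp2, cancelL h, mul_one, one_mul]))

include h hF hc1 hcn hcI hcH hG hidx in
/-- the elements which are not good -/
lemma bad_spec [Finite S.G] {b : S.G} (hb : b ∉ H) (hnb : S.neg * b ∉ H) (hbad : ¬ Good S H b) :
    ¬ O S b c ∧ ((S.neg ∉ H ∧ O S b S.neg) ∨ (S.neg * c ∉ H ∧ O S b (S.neg * c))) := by
  have hbc : ¬ O S b c := fun hc => hbad (good1 h H hF hb hnb hcH hc1 hc)
  refine ⟨hbc, ?_⟩
  unfold Good at hbad
  push Not at hbad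
  obtain ⟨x, hx, x1, x2⟩ := hbad
  have hbz : O S b (S.neg * b * x) := omul h (oneg h b) hx
  have e0 : S.neg * b * (S.neg * b * x) = x := cancelL h _ _
  have fin : ∀ x : S.G, O S b x → x ∉ H → (x = S.neg ∨ x = S.neg * c) →
      ((S.neg ∉ H ∧ O S b S.neg) ∨ (S.neg * c ∉ H ∧ O S b (S.neg * c))) := by
    intro x hx x1 hh
    rcases hh with rfl | rfl
    · exact Or.inl ⟨x1, hx⟩
    · exact Or.inr ⟨x1, hx⟩
  by_cases c1 : O S c x
  · exact fin x hx x1 (alpha h H hF hcH hb x1 x2 hx hc1 c1)
  by_cases c2 : O S c (S.neg * b * x)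
  · exact fin _ hbz x2 (alpha h H hF hcH hb x2 (by rw [e0]; exact x1) hbz hc1 c2)
  by_cases xn : x = S.neg
  · exact fin x hx x1 (Or.inl xn)
  by_cases zn : S.neg * b * x = S.neg
  · exact fin _ hbz x2 (Or.inl zn)
  exfalso
  refine beta h H hF hc1 hcI hcH hG hidx hb hnb x1 x2 hx xn zn (fun e => hbc (osymm h e)) ?_
  rcases hcI x (S.neg * b * x) with e | e | e
  · exact absurd e c1
  · exact absurd e c2
  · exact oeq (by simp only [mul_comm, mul_left_comm, mul_assoc, h.exp2, cancelL h, mul_one, one_mul]) e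

include h hF hc1 hcn hcI hcH hG hidx in
/-- the condition of the criterion -/
theorem step_half [Finite S.G] : Step S H := by
  classical
  -- the two kinds of bad elements
  let B1 : S.G → Prop := fun b => b ∉ H ∧ S.neg * b ∉ H ∧ ¬ Good S H b ∧ S.neg ∉ H ∧ O S b S.neg
  let B2 : S.G → Prop := fun b => b ∉ H ∧ S.neg * b ∉ H ∧ ¬ Good S H b ∧ S.neg * c ∉ H ∧
    O S b (S.neg * c)
  have k1 : ∀ b b', B1 b → B1 b' → b * b' ∈ H ∨ S.neg * (b * b') ∈ H := by
    rintro b b' ⟨h1, h2, h3, h4, h5⟩ ⟨h1', h2', h3', h4', h5'⟩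
    by_contra hcon
    push Not at hcon
    obtain ⟨g1, g2⟩ := hcon
    have n1 : S.neg ≠ 1 := fun e => h4 (e ▸ H.one_mem)
    have hcb := (bad_spec h H hF hc1 hcn hcI hcH hG hidx h1 h2 h3).1
    have hcb' := (bad_spec h H hF hc1 hcn hcI hcH hG hidx h1' h2' h3').1
    have hcbb : O S c (b * b') := by
      rcases hcI b b' with e | e | e
      · exact absurd (osymm h e) hcb
      · exact absurd (osymm h e) hcb'
      · exact e
    have hnbb : O S (b * b') S.neg := omulL h h5 h5'
    have gn : b * b' ≠ S.neg := by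
      intro e
      apply g2
      rw [e, h.exp2]
      exact H.one_mem
    have gn' : S.neg ≠ S.neg * (b * b') := fun e => g1 (by
      have : b * b' = 1 := cb1 h e (by simp only [mul_comm, mul_left_comm, mul_assoc, h.exp2, cancelL h, mul_one, one_mul])
      rw [this]; exact H.one_mem)
    rcases hF _ g1 gn S.neg c hnbb (osymm h hcbb) n1 gn' with e | e | e | e
    · exact hc1 e
    · exact g2 (e ▸ hcH)
    · exact hcn e
    · apply g1
      have : b * b' = c := cb1 h e (by simp only [mul_comm, mul_left_comm, mul_assoc, h.exp2, cancelL h, mul_one, one_mul])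
      rw [this]; exact hcH
  have k2 : ∀ b b', B2 b → B2 b' → b * b' ∈ H := by
    rintro b b' ⟨h1, h2, h3, h4, h5⟩ ⟨h1', h2', h3', h4', h5'⟩
    have b1 : b ≠ 1 := fun e => h1 (e ▸ H.one_mem)
    have g1 : S.neg * c ≠ S.neg := fun e => hc1 (cb1 h e (by simp only [mul_comm, mul_left_comm, mul_assoc, h.exp2, cancelL h, mul_one, one_mul]))
    have g2 : b ≠ S.neg * (S.neg * c) := by
      rw [cancelL h]
      rintro rfl
      exact h1 hcH
    rcases hF _ h4 g1 b b' (osymm h h5) (osymm h h5') b1 g2 with e | e | e | e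
    · exact absurd (e ▸ H.one_mem) h1'
    · rw [cancelL h] at e
      exact absurd (e ▸ hcH) h1'
    · rw [e, h.exp2]; exact H.one_mem
    · have : b * b' = c := cb1 h e (by simp only [mul_comm, mul_left_comm, mul_assoc, h.exp2, cancelL h, mul_one, one_mul])
      rw [this]; exact hcH
  -- representatives
  obtain ⟨r1, hr1⟩ : ∃ r1 : S.G, ∀ b, B1 b → r1 * b ∈ H ∨ S.neg * (r1 * b) ∈ H := by
    by_cases hex : ∃ b, B1 b
    · obtain ⟨r, hr⟩ := hex
      exact ⟨r, fun b hb => k1 r b hr hb⟩
    · exact ⟨1, fun b hb => absurd ⟨b, hb⟩ hex⟩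
  obtain ⟨r2, hr2⟩ : ∃ r2 : S.G, ∀ b, B2 b → r2 * b ∈ H := by
    by_cases hex : ∃ b, B2 b
    · obtain ⟨r, hr⟩ := hex
      exact ⟨r, fun b hb => k2 r b hr hb⟩
    · exact ⟨1, fun b hb => absurd ⟨b, hb⟩ hex⟩
  -- a coset avoiding five cosets
  obtain ⟨a, a1, a2, a3, a4, a5⟩ : ∃ a : S.G, a ∉ H ∧ S.neg * a ∉ H ∧ r1 * a ∉ H ∧
      S.neg * (r1 * a) ∉ H ∧ r2 * a ∉ H := by
    by_contra hcon
    push Not at hcon
    have hsub : (Set.univ : Set S.G) ⊆ ((((H : Set S.G) ∪ (S.neg * ·) '' (H : Set S.G)) ∪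
        (r1 * ·) '' (H : Set S.G)) ∪ (S.neg * r1 * ·) '' (H : Set S.G)) ∪
        (r2 * ·) '' (H : Set S.G) := by
      intro a _
      by_cases c1 : a ∈ H
      · exact Or.inl (Or.inl (Or.inl (Or.inl c1)))
      by_cases c2 : S.neg * a ∈ H
      · exact Or.inl (Or.inl (Or.inl (Or.inr ⟨_, c2, cancelL h _ _⟩)))
      by_cases c3 : r1 * a ∈ H
      · exact Or.inl (Or.inl (Or.inr ⟨_, c3, cancelL h _ _⟩))
      by_cases c4 : S.neg * (r1 * a) ∈ H
      · refine Or.inl (Or.inr ⟨_, c4, ?_⟩)
        show S.neg * r1 * (S.neg * (r1 * a)) = a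
        simp only [mul_comm, mul_left_comm, mul_assoc, h.exp2, cancelL h, mul_one, one_mul]
      · exact Or.inr ⟨_, hcon a c1 c2 c3 c4, cancelL h _ _⟩
    have i : ∀ g : S.G, ((g * ·) '' (H : Set S.G)).ncard ≤ Nat.card H := fun g =>
      Set.ncard_image_le (Set.toFinite _)
    have h1 := Set.ncard_le_ncard hsub (Set.toFinite _)
    have u1 := Set.ncard_union_le ((((H : Set S.G) ∪ (S.neg * ·) '' (H : Set S.G)) ∪
        (r1 * ·) '' (H : Set S.G)) ∪ (S.neg * r1 * ·) '' (H : Set S.G))
        ((r2 * ·) '' (H : Set S.G))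
    have u2 := Set.ncard_union_le (((H : Set S.G) ∪ (S.neg * ·) '' (H : Set S.G)) ∪
        (r1 * ·) '' (H : Set S.G)) ((S.neg * r1 * ·) '' (H : Set S.G))
    have u3 := Set.ncard_union_le ((H : Set S.G) ∪ (S.neg * ·) '' (H : Set S.G))
        ((r1 * ·) '' (H : Set S.G))
    have u4 := Set.ncard_union_le (H : Set S.G) ((S.neg * ·) '' (H : Set S.G))
    rw [Set.ncard_univ] at h1
    have i1 := i S.neg
    have i2 := i r1
    have i3 := i (S.neg * r1)
    have i4 := i r2
    have h6 : (H : Set S.G).ncard = Nat.card H := rfl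
    have h7 := H.card_mul_index
    have h8 : Nat.card H * 8 ≤ Nat.card H * H.index := Nat.mul_le_mul_left _ hidx
    have h9 : 0 < Nat.card H := Nat.card_pos
    omega
  refine ⟨a, a1, fun k hk x hx => ?_⟩
  have mH : ∀ g : S.G, g ∉ H → g * k ∉ H := fun g hg hc => hg (by
    have := H.mul_mem hc hk
    rwa [mul_cancel h] at this)
  have m1 : a * k ∉ H := mH a a1
  have m2 : S.neg * (a * k) ∉ H := by rw [← mul_assoc]; exact mH _ a2
  have hgood : Good S H (a * k) := by
    by_contra hbad
    rcases (bad_spec h H hF hc1 hcn hcI hcH hG hidx m1 m2 hbad).2 with ⟨e1, e2⟩ | ⟨e1, e2⟩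
    · rcases hr1 (a * k) ⟨m1, m2, hbad, e1, e2⟩ with e | e
      · rw [← mul_assoc] at e
        exact mH _ a3 e
      · have e' : S.neg * (r1 * (a * k)) = S.neg * (r1 * a) * k := by simp only [mul_comm, mul_left_comm, mul_assoc, h.exp2, cancelL h, mul_one, one_mul]
        rw [e'] at e
        exact mH _ a4 e
    · have e := hr2 (a * k) ⟨m1, m2, hbad, e1, e2⟩
      rw [← mul_assoc] at e
      exact mH _ a5 e
  rcases hgood x hx with e | e
  · exact ⟨1, x, o_one h a, e, one_mul _⟩
  · refine ⟨S.neg * a, S.neg * a * x, oneg h a, ?_, by simp only [mul_comm, mul_left_comm, mul_assoc, h.exp2, cancelL h, mul_one, one_mul]⟩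
    have := H.mul_mem e hk
    have e' : S.neg * (a * k) * x * k = S.neg * a * x := by simp only [mul_comm, mul_left_comm, mul_assoc, h.exp2, cancelL h, mul_one, one_mul]
    rwa [e'] at this

end half

/-- value groups of order at most four or index at most two -/
theorem elem_half (S : QData) (h : IsQuat S) (hf : Finite S.G)
    (hyp : ∀ a : S.G, a ≠ 1 → a ≠ S.neg → vs S a ≤ 4 ∨ IndexTwo S a) : Elem S := by
  by_cases hG : Nat.card S.G < 32
  · exact elem_small h hG
  by_cases hex : ∃ c : S.G, c ≠ 1 ∧ c ≠ S.neg ∧ IndexTwo S c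
  · obtain ⟨c, hc1, hcn, hcI⟩ := hex
    refine elem_of_step h fun H hH hI => stepTwo_of_step ?_
    by_cases hi : H.index < 8
    · exact step_of_index h H hH hi
    refine step_half h H ?_ hc1 hcn hcI (hI c hcI) (by omega) (by omega)
    intro a ha han
    refine f4_of_vs h han ((hyp a (fun e => ha (e ▸ H.one_mem)) han).resolve_right ?_)
    exact fun e => ha (hI a e)
  · refine elem_four _ S h hf le_rfl fun a h1 h2 => (hyp a h1 h2).resolve_right ?_
    exact fun e => hex ⟨a, h1, h2, e⟩

end Pool.Agent.K3h83.ET
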