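import Mathlib
import Pool.Agent.K3h83.ET.Half

set_option autoImplicit false
set_option linter.unusedSimpArgs false

/-! Quaternionic structures in which all value groups `V(a)`, `a ≠ 1, -1`, but one have at most
four elements. -/

namespace Pool.Agent.K3h83.ET

open Pool.Agent.H315R3.ETC Pool.Agent.Y920.ETC Pool.Agent.TH673.VG

section one

variable {S : QData} (h : IsQuat S)
include h

omit h in
/-- the elements of a value group with at most four elements -/
lemma f4_list {f : S.G} (hF : F4 S f) :
    ∃ p : S.G, ∀ y, O S f y → y = 1 ∨ y = S.neg * f ∨ y = p ∨ y = S.neg * f * p := by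
  by_cases hex : ∃ p, O S f p ∧ p ≠ 1 ∧ p ≠ S.neg * f
  · obtain ⟨p, h1, h2, h3⟩ := hex
    exact ⟨p, fun y hy => hF p y h1 hy h2 h3⟩
  · refine ⟨1, fun y hy => ?_⟩
    by_contra hcon
    push Not at hcon
    exact hex ⟨y, hy, hcon.1, hcon.2.1⟩

variable {c : S.G} (hc1 : c ≠ 1) (hcn : c ≠ S.neg)
  (hF : ∀ a : S.G, a ≠ 1 → a ≠ S.neg → a ≠ c → F4 S a)

/-- the relation between the elements of `V(c)` and of `V(bc)` -/
lemma key_one {b x v : S.G} (hbx : O S b x) (hcv : O S c v) :
    ∃ e, O S (b * c) e ∧ O S (v * e) (e * c * (S.neg * b * x)) := by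
  have t1 : S.q (b * c) v = S.q b v :=
    qoL h (oeq (by simp only [mul_comm, mul_left_comm, mul_assoc, h.exp2, cancelL h, mul_one, one_mul]) (osymm h hcv))
  have t2 : S.q (x * v) b = S.q b v := (h.qs2 _ _).trans (q_shift h v hbx)
  obtain ⟨y, y1, y2⟩ := link h t1 t2
  have k1 : O S (b * c) (v * y) := oq h (t1.trans y1.symm)
  have k2 : O S y (b * c * (x * v)) := oqL h (y1.trans y2.symm)
  refine ⟨v * y, k1, ?_⟩
  have e1 : v * (v * y) = y := cancelL h _ _
  rw [e1]
  exact oeq (by simp only [mul_comm, mul_left_comm, mul_assoc, h.exp2, cancelL h, mul_one, one_mul]) (omul h k2 (oneg h y))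

include hc1 hcn hF in
/-- the main lemma -/
theorem bad_one [Finite S.G] (hM : 8 ≤ {v : S.G | O S c v}.ncard) {b : S.G} (hb : ¬ Hr S b)
    (b1 : ¬ O S c b) (b2 : ¬ O S c (S.neg * b)) (b3 : S.neg ≠ 1 → ¬ O S b S.neg)
    (b4 : ¬ O S b (S.neg * c)) : False := by
  classical
  have hbc : ¬ O S b c := fun e => b1 (osymm h e)
  have bne1 : b ≠ 1 := by
    rintro rfl
    exact b1 (o_one h c)
  have bnen : b ≠ S.neg := by
    rintro rfl
    apply b2
    rw [h.exp2]
    exact o_one h c
  have bnec : b ≠ c := by
    rintro rfl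
    exact b2 (oneg h b)
  have hFb : F4 S b := hF b bne1 bnen bnec
  -- `V(b)` meets `V(c)` trivially
  have al : ∀ x : S.G, O S b x → x ≠ 1 → x ≠ S.neg * b → ¬ O S c x ∧ x ≠ S.neg ∧ x ≠ c := by
    intro x hx x1 x2
    have x3 : x ≠ S.neg := by
      rintro rfl
      exact b3 x1 hx
    have x4 : x ≠ c := by
      rintro rfl
      exact hbc hx
    refine ⟨fun hcx => ?_, x3, x4⟩
    rcases hF x x1 x3 x4 c b (osymm h hcx) (osymm h hx) hc1 (fun e => b4 (by
      have : x = S.neg * c := cb1 h e (by simp only [mul_comm, mul_left_comm, mul_assoc, h.exp2, cancelL h, mul_one, one_mul])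
      rwa [← this])) with e | e | e | e
    · exact bne1 e
    · exact x2 (cb1 h e (by simp only [mul_comm, mul_left_comm, mul_assoc, h.exp2, cancelL h, mul_one, one_mul]))
    · exact bnec e
    · have hz : O S b (S.neg * b * x) := omul h (oneg h b) hx
      have : S.neg * b * x = c := cb1 h e (by simp only [mul_comm, mul_left_comm, mul_assoc, h.exp2, cancelL h, mul_one, one_mul])
      exact hbc (this ▸ hz)
  obtain ⟨x, hx, x1, x2⟩ : ∃ x, O S b x ∧ x ≠ 1 ∧ x ≠ S.neg * b := by
    unfold Hr at hb
    push Not at hb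
    obtain ⟨x, hx, x1, x2⟩ := hb
    exact ⟨x, hx, x1, x2⟩
  obtain ⟨z, hz⟩ : ∃ z, z = S.neg * b * x := ⟨_, rfl⟩
  have hbz : O S b z := by rw [hz]; exact omul h (oneg h b) hx
  have z1 : z ≠ 1 := fun e => x2 (by rw [hz] at e; exact cb1 h e (by simp only [mul_comm, mul_left_comm, mul_assoc, h.exp2, cancelL h, mul_one, one_mul]))
  have z2 : z ≠ S.neg * b := fun e => x1 (by rw [hz] at e; exact cb1 h e (by simp only [mul_comm, mul_left_comm, mul_assoc, h.exp2, cancelL h, mul_one, one_mul]))
  have hzx : x = S.neg * b * z := by rw [hz]; exact (cancelL h _ _).symm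
  obtain ⟨xM, xn, xc⟩ := al x hx x1 x2
  obtain ⟨zM, zn, zc⟩ := al z hbz z1 z2
  have hVb : ∀ y, O S b y → y = 1 ∨ y = S.neg * b ∨ y = x ∨ y = z := by
    intro y hy
    rcases hFb x y hx hy x1 x2 with e | e | e | e
    · exact Or.inl e
    · exact Or.inr (Or.inl e)
    · exact Or.inr (Or.inr (Or.inl e))
    · exact Or.inr (Or.inr (Or.inr (e.trans hz.symm)))
  have hVx : ∀ y, O S x y → y = 1 ∨ y = S.neg * x ∨ y = b ∨ y = z := by
    intro y hy
    have : b ≠ S.neg * x := fun e => x2 (cb1 h e (by simp only [mul_comm, mul_left_comm, mul_assoc, h.exp2, cancelL h, mul_one, one_mul]))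
    rcases hF x x1 xn xc b y (osymm h hx) hy bne1 this with e | e | e | e
    · exact Or.inl e
    · exact Or.inr (Or.inl e)
    · exact Or.inr (Or.inr (Or.inl e))
    · exact Or.inr (Or.inr (Or.inr (by rw [e, hz]; simp only [mul_comm, mul_left_comm, mul_assoc, h.exp2, cancelL h, mul_one, one_mul])))
  have hVz : ∀ y, O S z y → y = 1 ∨ y = S.neg * z ∨ y = b ∨ y = x := by
    intro y hy
    have : b ≠ S.neg * z := fun e => z2 (cb1 h e (by simp only [mul_comm, mul_left_comm, mul_assoc, h.exp2, cancelL h, mul_one, one_mul]))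
    rcases hF z z1 zn zc b y (osymm h hbz) hy bne1 this with e | e | e | e
    · exact Or.inl e
    · exact Or.inr (Or.inl e)
    · exact Or.inr (Or.inr (Or.inl e))
    · exact Or.inr (Or.inr (Or.inr (by rw [e, hzx]; simp only [mul_comm, mul_left_comm, mul_assoc, h.exp2, cancelL h, mul_one, one_mul])))
  have xz : x * z = S.neg * b := by rw [hz]; simp only [mul_comm, mul_left_comm, mul_assoc, h.exp2, cancelL h, mul_one, one_mul]
  -- closing tools: a product with elements of `V(c)`
  have ncM : O S c (S.neg * c) := oneg h c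
  have bad : ∀ v w : S.G, O S c v → v * (S.neg * c) = w → O S c w := fun v w hv e =>
    oeq e (omul h hv ncM)
  have bc1 : b * c ≠ 1 := fun e => bnec (eq_of_mul h _ _ e)
  have bcn : b * c ≠ S.neg := fun e => b1 (by
    have : b = S.neg * c := cb1 h e (by simp only [mul_comm, mul_left_comm, mul_assoc, h.exp2, cancelL h, mul_one, one_mul])
    rw [this]; exact ncM)
  have bcc : b * c ≠ c := fun e => bne1 (cb1 h e (by simp only [mul_comm, mul_left_comm, mul_assoc, h.exp2, cancelL h, mul_one, one_mul]))
  have hFbc : F4 S (b * c) := hF _ bc1 bcn bcc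
  have toB : ∀ e, O S (b * c) e → O S c e → O S b e := by
    intro e h1 h2
    have := omulL h h1 h2
    rwa [mul_cancel h] at this
  have toC : ∀ e, O S (b * c) e → O S b e → O S c e := by
    intro e h1 h2
    have := omulL h h1 h2
    have e' : b * c * b = c := by simp only [mul_comm, mul_left_comm, mul_assoc, h.exp2, cancelL h, mul_one, one_mul]
    rwa [e'] at this
  have meet : ∀ e, O S (b * c) e → O S c e → e = 1 := by
    intro e h1 h2
    rcases hVb e (toB e h1 h2) with e' | e' | e' | e'
    · exact e'
    · exact absurd (e' ▸ h2) b2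
    · exact absurd (e' ▸ h2) xM
    · exact absurd (e' ▸ h2) zM
  have nbx : S.neg * b * x = z := hz.symm
  have nbz : S.neg * b * z = x := hzx.symm
  -- the case `e = 1`
  have E1 : ∀ x z : S.G, (∀ y, O S z y → y = 1 ∨ y = S.neg * z ∨ y = b ∨ y = x) → ¬ O S c x →
      ∀ v, O S c v → O S (v * 1) (1 * c * z) → v = 1 ∨ v = S.neg * z := by
    intro x z hVz xM v hv hk
    have h1 : O S v (c * (1 * c * z)) := omul h (osymm h hv) (by rwa [mul_one] at hk)
    have h2 : O S v z := oeq (by simp only [mul_comm, mul_left_comm, mul_assoc, h.exp2, cancelL h, mul_one, one_mul]) h1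
    rcases hVz v (osymm h h2) with e | e | e | e
    · exact Or.inl e
    · exact Or.inr e
    · exact absurd (e ▸ hv) b1
    · exact absurd (e ▸ hv) xM
  -- the case `e = -bc`
  have E2 : ∀ x z : S.G, S.neg * b * z = x → S.neg * b * x = z → ¬ O S c z →
      (∀ y, O S x y → y = 1 ∨ y = S.neg * x ∨ y = b ∨ y = z) →
      ∀ v, O S c v → O S (v * (S.neg * (b * c))) (S.neg * (b * c) * c * z) →
      v = S.neg * c ∨ v = c * x := by
    intro x z h1 h2 zM hVx v hv hk
    have e1 : S.neg * (b * c) * c * z = x := by rw [← h1]; simp only [mul_comm, mul_left_comm, mul_assoc, h.exp2, cancelL h, mul_one, one_mul]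
    rw [e1] at hk
    rcases hVx _ (osymm h hk) with e | e | e | e
    · exfalso
      have : v = S.neg * (b * c) := cb1 h e (by simp only [mul_comm, mul_left_comm, mul_assoc, h.exp2, cancelL h, mul_one, one_mul])
      exact b1 (bad v b hv (by rw [this]; simp only [mul_comm, mul_left_comm, mul_assoc, h.exp2, cancelL h, mul_one, one_mul]))
    · exfalso
      have : v = b * c * x := cb1 h e (by simp only [mul_comm, mul_left_comm, mul_assoc, h.exp2, cancelL h, mul_one, one_mul])
      exact zM (bad v z hv (by rw [this, ← h2]; simp only [mul_comm, mul_left_comm, mul_assoc, h.exp2, cancelL h, mul_one, one_mul]))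
    · left; exact cb1 h e (by simp only [mul_comm, mul_left_comm, mul_assoc, h.exp2, cancelL h, mul_one, one_mul])
    · right
      have : v = S.neg * b * z * c := cb1 h e (by simp only [mul_comm, mul_left_comm, mul_assoc, h.exp2, cancelL h, mul_one, one_mul])
      rw [this, h1, mul_comm]
  -- other `e`
  have E3a : ∀ e, O S (b * c) e → e * c * z ≠ 1 := by
    intro e he h1
    have e1 : e = c * z := cb1 h h1 (by simp only [mul_comm, mul_left_comm, mul_assoc, h.exp2, cancelL h, mul_one, one_mul])
    rw [e1] at he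
    have h2 : O S (b * c) x := oeq (by rw [← nbz]; simp only [mul_comm, mul_left_comm, mul_assoc, h.exp2, cancelL h, mul_one, one_mul]) (omul h (oneg h (b * c)) he)
    exact xM (toC x h2 hx)
  have E3b : ∀ e, O S (b * c) e → e * c * z ≠ c := by
    intro e he h1
    have e1 : e = z := cb1 h h1 (by simp only [mul_comm, mul_left_comm, mul_assoc, h.exp2, cancelL h, mul_one, one_mul])
    rw [e1] at he
    exact zM (toC z he hbz)
  have ex2 : ∀ e, O S (b * c) e → e ≠ 1 → e * c * z ≠ S.neg →
      ∃ p q, ∀ v, O S c v → O S (v * e) (e * c * z) → v = p ∨ v = q := by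
    intro e he he1 hen
    obtain ⟨p, hp⟩ := f4_list (hF _ (E3a e he) hen (E3b e he))
    refine ⟨e * p, e * (S.neg * (e * c * z) * p), fun v hv hk => ?_⟩
    rcases hp _ (osymm h hk) with e' | e' | e' | e'
    · exfalso
      have : v = e := cb1 h e' (by simp only [mul_comm, mul_left_comm, mul_assoc, h.exp2, cancelL h, mul_one, one_mul])
      exact he1 (meet e he (this ▸ hv))
    · exfalso
      have : v = S.neg * c * z := cb1 h e' (by simp only [mul_comm, mul_left_comm, mul_assoc, h.exp2, cancelL h, mul_one, one_mul])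
      exact zM (bad v z hv (by rw [this]; simp only [mul_comm, mul_left_comm, mul_assoc, h.exp2, cancelL h, mul_one, one_mul]))
    · left; exact cb1 h e' (by simp only [mul_comm, mul_left_comm, mul_assoc, h.exp2, cancelL h, mul_one, one_mul])
    · right; exact cb1 h e' (by simp only [mul_comm, mul_left_comm, mul_assoc, h.exp2, cancelL h, mul_one, one_mul])
  by_cases hA : ∃ e, O S (b * c) e ∧ e * c * z = S.neg
  · -- the exceptional case
    obtain ⟨e, he, hen⟩ := hA
    have nn : S.neg ≠ 1 := fun e' => E3a e he (hen.trans e')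
    have e1 : e = S.neg * c * z := cb1 h hen (by simp only [mul_comm, mul_left_comm, mul_assoc, h.exp2, cancelL h, mul_one, one_mul])
    rw [e1] at he
    have g1 : S.neg * c * z ≠ 1 := fun e => zM (by
      have : z = S.neg * c := cb1 h e (by simp only [mul_comm, mul_left_comm, mul_assoc, h.exp2, cancelL h, mul_one, one_mul])
      rw [this]; exact ncM)
    have g2 : S.neg * c * z ≠ S.neg * (b * c) := fun e => xn (by
      have h5 : z = b := cb1 h e (by simp only [mul_comm, mul_left_comm, mul_assoc, h.exp2, cancelL h, mul_one, one_mul])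
      rw [← nbz, h5]; simp only [mul_comm, mul_left_comm, mul_assoc, h.exp2, cancelL h, mul_one, one_mul])
    obtain ⟨p, hp⟩ := f4_list (hF (S.neg * c) (fun e => hcn (cb1 h e (by simp only [mul_comm, mul_left_comm, mul_assoc, h.exp2, cancelL h, mul_one, one_mul])))
      (fun e => hc1 (cb1 h e (by simp only [mul_comm, mul_left_comm, mul_assoc, h.exp2, cancelL h, mul_one, one_mul]))) (fun e => nn (cb1 h e (by simp only [mul_comm, mul_left_comm, mul_assoc, h.exp2, cancelL h, mul_one, one_mul]))))
    have hsub : {v : S.G | O S c v} ⊆ (({1, S.neg * x, S.neg * c, c * z, S.neg * x * p,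
        S.neg * x * (S.neg * (S.neg * c) * p)} : Finset S.G) : Set S.G) := by
      intro v hv
      have hv : O S c v := hv
      simp only [Finset.coe_insert, Finset.coe_singleton, Set.mem_insert_iff,
        Set.mem_singleton_iff]
      obtain ⟨e, k1, k2⟩ := key_one h hbz hv
      rw [nbz] at k2
      rcases hFbc (S.neg * c * z) e he k1 g1 g2 with e' | e' | e' | e'
      · rw [e'] at k2
        rcases E1 z x hVx zM v hv k2 with e' | e'
        · exact Or.inl e'
        · exact Or.inr (Or.inl e')
      · rw [e'] at k2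
        rcases E2 z x nbx nbz xM hVz v hv k2 with e' | e'
        · exact Or.inr (Or.inr (Or.inl e'))
        · exact Or.inr (Or.inr (Or.inr (Or.inl e')))
      · have h6 : e * c * x = b := by
          rw [e', ← nbx]; simp only [mul_comm, mul_left_comm, mul_assoc, h.exp2, cancelL h, mul_one, one_mul]
        rw [h6, e'] at k2
        rcases hVb _ (osymm h k2) with e' | e' | e' | e'
        · exfalso
          have : v = S.neg * c * z := cb1 h e' (by simp only [mul_comm, mul_left_comm, mul_assoc, h.exp2, cancelL h, mul_one, one_mul])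
          exact zM (bad v z hv (by rw [this]; simp only [mul_comm, mul_left_comm, mul_assoc, h.exp2, cancelL h, mul_one, one_mul]))
        · exfalso
          have : v = b * c * z := cb1 h e' (by simp only [mul_comm, mul_left_comm, mul_assoc, h.exp2, cancelL h, mul_one, one_mul])
          exact xM (bad v x hv (by rw [this, ← nbz]; simp only [mul_comm, mul_left_comm, mul_assoc, h.exp2, cancelL h, mul_one, one_mul]))
        · exfalso
          have : v = S.neg * c * (x * z) := cb1 h e' (by simp only [mul_comm, mul_left_comm, mul_assoc, h.exp2, cancelL h, mul_one, one_mul])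
          rw [xz] at this
          exact b2 (bad v _ hv (by rw [this]; simp only [mul_comm, mul_left_comm, mul_assoc, h.exp2, cancelL h, mul_one, one_mul]))
        · exact Or.inr (Or.inr (Or.inl (cb1 h e' (by simp only [mul_comm, mul_left_comm, mul_assoc, h.exp2, cancelL h, mul_one, one_mul]))))
      · have h7 : e = S.neg * x := by
          rw [e', ← nbx]; simp only [mul_comm, mul_left_comm, mul_assoc, h.exp2, cancelL h, mul_one, one_mul]
        rw [h7] at k2
        have h8 : S.neg * x * c * x = S.neg * c := by simp only [mul_comm, mul_left_comm, mul_assoc, h.exp2, cancelL h, mul_one, one_mul]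
        rw [h8] at k2
        rcases hp _ (osymm h k2) with e' | e' | e' | e'
        · exact Or.inr (Or.inl (cb1 h e' (by simp only [mul_comm, mul_left_comm, mul_assoc, h.exp2, cancelL h, mul_one, one_mul])))
        · exfalso
          have : v = S.neg * c * x := cb1 h e' (by simp only [mul_comm, mul_left_comm, mul_assoc, h.exp2, cancelL h, mul_one, one_mul])
          exact xM (bad v x hv (by rw [this]; simp only [mul_comm, mul_left_comm, mul_assoc, h.exp2, cancelL h, mul_one, one_mul]))
        · exact Or.inr (Or.inr (Or.inr (Or.inr (Or.inl (cb1 h e' (by simp only [mul_comm, mul_left_comm, mul_assoc, h.exp2, cancelL h, mul_one, one_mul]))))))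
        · exact Or.inr (Or.inr (Or.inr (Or.inr (Or.inr (cb1 h e' (by simp only [mul_comm, mul_left_comm, mul_assoc, h.exp2, cancelL h, mul_one, one_mul]))))))
    have h9 := Set.ncard_le_ncard hsub (Set.toFinite _)
    rw [Set.ncard_coe_finset] at h9
    have h10 : ({1, S.neg * x, S.neg * c, c * z, S.neg * x * p,
        S.neg * x * (S.neg * (S.neg * c) * p)} : Finset S.G).card ≤ 6 := Finset.card_le_six
    omega
  · -- the general case
    push Not at hA
    obtain ⟨e0, he0⟩ := f4_list hFbc
    have two : ∀ e, ∃ p q, O S (b * c) e → e ≠ 1 → ∀ v, O S c v → O S (v * e) (e * c * z) →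
        v = p ∨ v = q := by
      intro e
      by_cases k1 : O S (b * c) e ∧ e ≠ 1
      · obtain ⟨p, q, hpq⟩ := ex2 e k1.1 k1.2 (hA e k1.1)
        exact ⟨p, q, fun _ _ => hpq⟩
      · exact ⟨1, 1, fun k2 k3 => absurd ⟨k2, k3⟩ k1⟩
    obtain ⟨p0, q0, h0⟩ := two e0
    obtain ⟨p1, q1, h1⟩ := two (S.neg * (b * c) * e0)
    have hall : ∀ v, O S c v → (v = 1 ∨ v = S.neg * z) ∨ (v = S.neg * c ∨ v = c * x) ∨
        (v = p0 ∨ v = q0) ∨ (v = p1 ∨ v = q1) := by
      intro v hv
      obtain ⟨e, k1, k2⟩ := key_one h hx hv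
      rw [nbx] at k2
      by_cases k3 : e = 1
      · rw [k3] at k2
        exact Or.inl (E1 x z hVz xM v hv k2)
      rcases he0 e k1 with e' | e' | e' | e'
      · exact absurd e' k3
      · rw [e'] at k2
        exact Or.inr (Or.inl (E2 x z nbz nbx zM hVx v hv k2))
      · exact Or.inr (Or.inr (Or.inl (h0 (e' ▸ k1) (e' ▸ k3) v hv (e' ▸ k2))))
      · exact Or.inr (Or.inr (Or.inr (h1 (e' ▸ k1) (e' ▸ k3) v hv (e' ▸ k2))))
    have hnot : ¬ (O S c (S.neg * z) ∧ O S c (c * x)) := by
      rintro ⟨k1, k2⟩
      have k3 := bad _ (S.neg * x) k2 (by simp only [mul_comm, mul_left_comm, mul_assoc, h.exp2, cancelL h, mul_one, one_mul])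
      have k4 := omul h k1 k3
      have e5 : S.neg * z * (S.neg * x) = S.neg * b := by
        rw [← xz]; simp only [mul_comm, mul_left_comm, mul_assoc, h.exp2, cancelL h, mul_one, one_mul]
      rw [e5] at k4
      exact b2 k4
    have hcard : ∀ s : Finset S.G, s.card ≤ 7 → {v : S.G | O S c v} ⊆ (s : Set S.G) → False := by
      intro s hs hsub
      have h9 := Set.ncard_le_ncard hsub (Set.toFinite _)
      rw [Set.ncard_coe_finset] at h9
      omega
    have c7 : ∀ a1 a2 a3 a4 a5 a6 a7 : S.G, ({a1, a2, a3, a4, a5, a6, a7} : Finset S.G).card ≤ 7 := by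
      intro a1 a2 a3 a4 a5 a6 a7
      refine (Finset.card_insert_le _ _).trans ?_
      have := Finset.card_le_six (a := a2) (b := a3) (c := a4) (d := a5) (e := a6) (f := a7)
      omega
    by_cases k1 : O S c (S.neg * z)
    · refine hcard {1, S.neg * z, S.neg * c, p0, q0, p1, q1} (c7 _ _ _ _ _ _ _) ?_
      intro v hv
      simp only [Finset.coe_insert, Finset.coe_singleton, Set.mem_insert_iff,
        Set.mem_singleton_iff]
      rcases hall v hv with (e | e) | (e | e) | (e | e) | (e | e)
      · exact Or.inl e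
      · exact Or.inr (Or.inl e)
      · exact Or.inr (Or.inr (Or.inl e))
      · exact absurd ⟨k1, e ▸ hv⟩ hnot
      · exact Or.inr (Or.inr (Or.inr (Or.inl e)))
      · exact Or.inr (Or.inr (Or.inr (Or.inr (Or.inl e))))
      · exact Or.inr (Or.inr (Or.inr (Or.inr (Or.inr (Or.inl e)))))
      · exact Or.inr (Or.inr (Or.inr (Or.inr (Or.inr (Or.inr e)))))
    · refine hcard {1, S.neg * c, c * x, p0, q0, p1, q1} (c7 _ _ _ _ _ _ _) ?_
      intro v hv
      simp only [Finset.coe_insert, Finset.coe_singleton, Set.mem_insert_iff,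
        Set.mem_singleton_iff]
      rcases hall v hv with (e | e) | (e | e) | (e | e) | (e | e)
      · exact Or.inl e
      · exact absurd (e ▸ hv) k1
      · exact Or.inr (Or.inl e)
      · exact Or.inr (Or.inr (Or.inl e))
      · exact Or.inr (Or.inr (Or.inr (Or.inl e)))
      · exact Or.inr (Or.inr (Or.inr (Or.inr (Or.inl e))))
      · exact Or.inr (Or.inr (Or.inr (Or.inr (Or.inr (Or.inl e)))))
      · exact Or.inr (Or.inr (Or.inr (Or.inr (Or.inr (Or.inr e)))))

/-- `±V(c)` as a subgroup -/
def PM (c : S.G) : Subgroup S.G where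
  carrier := {g | O S c g ∨ O S c (S.neg * g)}
  one_mem' := Or.inl (o_one h c)
  mul_mem' := by
    rintro a b (ha | ha) (hb | hb)
    · exact Or.inl (omul h ha hb)
    · exact Or.inr (oeq (by simp only [mul_comm, mul_left_comm, mul_assoc, h.exp2, cancelL h, mul_one, one_mul]) (omul h ha hb))
    · exact Or.inr (oeq (by simp only [mul_comm, mul_left_comm, mul_assoc, h.exp2, cancelL h, mul_one, one_mul]) (omul h ha hb))
    · exact Or.inl (oeq (by simp only [mul_comm, mul_left_comm, mul_assoc, h.exp2, cancelL h, mul_one, one_mul]) (omul h ha hb))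
  inv_mem' := by
    intro a ha
    have : a⁻¹ = a := inv_eq_of_mul_eq_one_left (h.exp2 a)
    rwa [this]

lemma mem_PM {c g : S.G} : g ∈ PM h c ↔ (O S c g ∨ O S c (S.neg * g)) := Iff.rfl

/-- a value group of index greater than two has index at least four -/
lemma four_le [Finite S.G] {c : S.G} (hI : ¬ IndexTwo S c) : 4 * vs S c ≤ Nat.card S.G := by
  have e1 : Nat.card (D h c) = vs S c := rfl
  have e2 := (D h c).card_mul_index
  obtain ⟨n, hn⟩ := card_pow h
  obtain ⟨j, -, hj⟩ : ∃ j ≤ n, (D h c).index = 2 ^ j :=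
    (Nat.dvd_prime_pow Nat.prime_two).1 (hn ▸ Subgroup.index_dvd_card _)
  by_cases hj2 : 2 ≤ j
  · have : 4 ≤ 2 ^ j := by
      calc 4 = 2 ^ 2 := by norm_num
        _ ≤ 2 ^ j := Nat.pow_le_pow_right (by norm_num) hj2
    rw [← hj] at this
    have h4 := Nat.mul_le_mul_left (Nat.card (D h c)) this
    rw [e2, e1] at h4
    omega
  · exfalso
    apply hI
    have hm : ∀ z : S.G, z ∈ D h c ↔ S.q c z = S.zero := fun z => Iff.rfl
    intro x y
    rw [← hm, ← hm, ← hm]
    have hj' : j = 0 ∨ j = 1 := by omega
    rcases hj' with rfl | rfl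
    · left
      rw [Subgroup.index_eq_one.1 (hj.trans (pow_zero 2))]
      exact Subgroup.mem_top x
    · rw [pow_one] at hj
      by_cases hx : x ∈ D h c
      · exact Or.inl hx
      · by_cases hy : y ∈ D h c
        · exact Or.inr (Or.inl hy)
        · right; right
          rw [Subgroup.mul_mem_iff_of_index_two hj]
          exact iff_of_false hx hy

/-- a proper subgroup has at most half of the elements -/
lemma half_le [Finite S.G] {A : Subgroup S.G} (hA : A ≠ ⊤) : 2 * Nat.card A ≤ Nat.card S.G := by
  have h1 := A.card_mul_index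
  have h2 : A.index ≠ 0 := Subgroup.index_ne_zero_of_finite
  have h3 : A.index ≠ 1 := fun e => hA (Subgroup.index_eq_one.1 e)
  have h4 : 2 ≤ A.index := by omega
  have := Nat.mul_le_mul_left (Nat.card A) h4
  omega

/-- two proper subgroups miss a quarter of the elements -/
lemma union_le [Finite S.G] {A B : Subgroup S.G} (hA : A ≠ ⊤) (hB : B ≠ ⊤) :
    4 * ((A : Set S.G) ∪ (B : Set S.G)).ncard ≤ 3 * Nat.card S.G := by
  have hu := Set.ncard_union_add_ncard_inter (A : Set S.G) (B : Set S.G)
  have eA : (A : Set S.G).ncard = Nat.card A := rfl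
  have eB : (B : Set S.G).ncard = Nat.card B := rfl
  have eI : ((A : Set S.G) ∩ (B : Set S.G)).ncard = Nat.card (A ⊓ B : Subgroup S.G) := rfl
  obtain ⟨n, hn⟩ := card_pow h
  have key : ∀ C : Subgroup S.G, C ≠ ⊤ → C.index = 2 ∨ 4 * Nat.card C ≤ Nat.card S.G := by
    intro C hC
    obtain ⟨j, -, hj⟩ : ∃ j ≤ n, C.index = 2 ^ j :=
      (Nat.dvd_prime_pow Nat.prime_two).1 (hn ▸ Subgroup.index_dvd_card _)
    by_cases hj2 : 2 ≤ j
    · right
      have : 4 ≤ 2 ^ j := by
        calc 4 = 2 ^ 2 := by norm_num
          _ ≤ 2 ^ j := Nat.pow_le_pow_right (by norm_num) hj2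
      rw [← hj] at this
      have h4 := Nat.mul_le_mul_left (Nat.card C) this
      rw [C.card_mul_index] at h4
      omega
    · left
      have hj' : j = 0 ∨ j = 1 := by omega
      rcases hj' with rfl | rfl
      · exact absurd (Subgroup.index_eq_one.1 (hj.trans (pow_zero 2))) hC
      · rw [hj, pow_one]
  have hA2 := half_le h hA
  have hB2 := half_le h hB
  rcases key A hA with h1 | h1
  · rcases key B hB with h2 | h2
    · have h3 := Subgroup.index_inf_le (H := A) (K := B)
      rw [h1, h2] at h3
      have h4 := (A ⊓ B : Subgroup S.G).card_mul_index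
      have h5 := Nat.mul_le_mul_left (Nat.card (A ⊓ B : Subgroup S.G)) h3
      rw [h4] at h5
      have h6 := A.card_mul_index
      have h7 := B.card_mul_index
      rw [h1] at h6
      rw [h2] at h7
      omega
    · omega
  · omega

include hc1 hcn hF in
/-- no birigid elements and one large value group: it has index at most two -/
theorem no_bi_one [Finite S.G] (hM : 8 ≤ vs S c) (hG : 32 ≤ Nat.card S.G)
    (hb : ∀ a : S.G, ¬ Bi S a) : IndexTwo S c := by
  classical
  by_contra hI
  have h4 := four_le h hI
  have hM' : 8 ≤ {v : S.G | O S c v}.ncard := hM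
  -- the covering
  have cov : ∀ g : S.G, g ∈ PM h c ∨ (S.neg ≠ 1 ∧ g ∈ PM h S.neg) ∨
      (O S g (S.neg * c) ∨ O S (S.neg * g) (S.neg * c)) := by
    intro g
    by_contra hcon
    push Not at hcon
    obtain ⟨k1, k2, k3, k4⟩ := hcon
    rw [mem_PM] at k1
    push Not at k1
    obtain ⟨k1, k1'⟩ := k1
    have m1 : S.neg * (S.neg * g) = g := cancelL h _ _
    have g1 : g ≠ 1 := by
      rintro rfl
      exact k1 (o_one h c)
    have g2 : g ≠ S.neg := by
      rintro rfl
      apply k1'
      rw [h.exp2]
      exact o_one h c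
    have kn : ∀ w, (w = g ∨ w = S.neg * g) → S.neg ≠ 1 → ¬ O S w S.neg := by
      intro w hw hn ho
      apply k2 hn
      rw [mem_PM]
      rcases hw with rfl | rfl
      · exact Or.inl (osymm h ho)
      · exact Or.inr (osymm h ho)
    by_cases hg : Hr S g
    · have hg' : ¬ Hr S (S.neg * g) := fun hg' => hb g ⟨g1, g2, hg, hg'⟩
      exact bad_one h hc1 hcn hF hM' hg' k1' (by rwa [m1]) (kn _ (Or.inr rfl)) k4
    · exact bad_one h hc1 hcn hF hM' hg k1 k1' (kn _ (Or.inl rfl)) k3
  by_cases hn1 : S.neg = 1
  · -- `-1 = 1`: then `G = V(c)`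
    apply hI
    intro x y
    left
    rcases cov x with k | k | k
    · rw [mem_PM, hn1, one_mul] at k
      exact k.elim id id
    · exact absurd hn1 k.1
    · rw [hn1, one_mul, one_mul] at k
      exact osymm h (k.elim id id)
  -- `±W` is not everything
  have hW : PM h S.neg ≠ ⊤ := by
    intro htop
    have hall : ∀ g, O S S.neg g ∨ O S S.neg (S.neg * g) := by
      intro g
      rw [← mem_PM h, htop]
      exact Subgroup.mem_top g
    -- `V(c) ∩ W` is small
    have hint : ∀ v, O S c v → O S S.neg v → v = 1 ∨ v = S.neg ∨ v = c ∨ v = S.neg * c := by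
      intro v h1 h2
      by_contra hc
      push Not at hc
      obtain ⟨v1, v2, v3, v4⟩ := hc
      rcases hF v v1 v2 v3 c S.neg (osymm h h1) (osymm h h2) hc1
        (fun e => v4 (cb1 h e (by simp only [mul_comm, mul_left_comm, mul_assoc, h.exp2, cancelL h, mul_one, one_mul]))) with e | e | e | e
      · exact hn1 e
      · exact v1 (cb1 h e (by simp only [mul_comm, mul_left_comm, mul_assoc, h.exp2, cancelL h, mul_one, one_mul]))
      · exact hcn e.symm
      · exact v3 (cb1 h e (by simp only [mul_comm, mul_left_comm, mul_assoc, h.exp2, cancelL h, mul_one, one_mul]))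
    by_cases hnn : O S S.neg S.neg
    · have hsub : {v : S.G | O S c v} ⊆ (({1, S.neg, c, S.neg * c} : Finset S.G) : Set S.G) := by
        intro v hv
        simp only [Finset.coe_insert, Finset.coe_singleton, Set.mem_insert_iff,
          Set.mem_singleton_iff]
        refine hint v hv ?_
        rcases hall v with h5 | h5
        · exact h5
        · exact oeq (by simp only [mul_comm, mul_left_comm, mul_assoc, h.exp2, cancelL h, mul_one, one_mul]) (omul h hnn h5)
      have h9 := Set.ncard_le_ncard hsub (Set.toFinite _)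
      rw [Set.ncard_coe_finset] at h9
      have := Finset.card_le_four (a := (1 : S.G)) (b := S.neg) (c := c) (d := S.neg * c)
      omega
    · -- `V(c) ∩ W ⊆ {1, c, -c}`
      have h3 : ∀ v, O S c v → O S S.neg v → v = 1 ∨ v = c ∨ v = S.neg * c := by
        intro v h1 h2
        rcases hint v h1 h2 with e | e | e | e
        · exact Or.inl e
        · exact absurd (e ▸ h2) hnn
        · exact Or.inr (Or.inl e)
        · exact Or.inr (Or.inr e)
      by_cases hex : ∃ g0, O S c g0 ∧ ¬ O S S.neg g0
      · obtain ⟨g0, k1, k2⟩ := hex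
        have k2' := (hall g0).resolve_left k2
        have hsub : {v : S.G | O S c v} ⊆
            (({1, c, S.neg * c, g0, g0 * c, g0 * (S.neg * c)} : Finset S.G) : Set S.G) := by
          intro v hv
          simp only [Finset.coe_insert, Finset.coe_singleton, Set.mem_insert_iff,
            Set.mem_singleton_iff]
          rcases hall v with h5 | h5
          · rcases h3 v hv h5 with e | e | e
            · exact Or.inl e
            · exact Or.inr (Or.inl e)
            · exact Or.inr (Or.inr (Or.inl e))
          · have h6 : O S S.neg (g0 * v) := oeq (by simp only [mul_comm, mul_left_comm, mul_assoc, h.exp2, cancelL h, mul_one, one_mul]) (omul h k2' h5)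
            rcases h3 _ (omul h k1 hv) h6 with e | e | e
            · exact Or.inr (Or.inr (Or.inr (Or.inl (cb1 h e (by simp only [mul_comm, mul_left_comm, mul_assoc, h.exp2, cancelL h, mul_one, one_mul])))))
            · exact Or.inr (Or.inr (Or.inr (Or.inr (Or.inl (cb1 h e (by simp only [mul_comm, mul_left_comm, mul_assoc, h.exp2, cancelL h, mul_one, one_mul]))))))
            · exact Or.inr (Or.inr (Or.inr (Or.inr (Or.inr (cb1 h e (by simp only [mul_comm, mul_left_comm, mul_assoc, h.exp2, cancelL h, mul_one, one_mul]))))))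
        have h9 := Set.ncard_le_ncard hsub (Set.toFinite _)
        rw [Set.ncard_coe_finset] at h9
        have := Finset.card_le_six (a := (1 : S.G)) (b := c) (c := S.neg * c) (d := g0)
          (e := g0 * c) (f := g0 * (S.neg * c))
        omega
      · push Not at hex
        have hsub : {v : S.G | O S c v} ⊆ (({1, c, S.neg * c} : Finset S.G) : Set S.G) := by
          intro v hv
          simp only [Finset.coe_insert, Finset.coe_singleton, Set.mem_insert_iff,
            Set.mem_singleton_iff]
          exact h3 v hv (hex v hv)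
        have h9 := Set.ncard_le_ncard hsub (Set.toFinite _)
        rw [Set.ncard_coe_finset] at h9
        have := Finset.card_le_three (a := (1 : S.G)) (b := c) (c := S.neg * c)
        omega
  -- `±V(c)` is not everything
  have hPc : 2 * Nat.card (PM h c) ≤ Nat.card S.G := by
    have hsub : ((PM h c : Subgroup S.G) : Set S.G) ⊆ {v : S.G | O S c v} ∪
        (S.neg * ·) '' {v : S.G | O S c v} := by
      rintro g (hg | hg)
      · exact Or.inl hg
      · exact Or.inr ⟨_, hg, cancelL h _ _⟩
    have h5 := (Set.ncard_le_ncard hsub (Set.toFinite _)).trans (Set.ncard_union_le _ _)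
    have h6 : ((S.neg * ·) '' {v : S.G | O S c v}).ncard ≤ {v : S.G | O S c v}.ncard :=
      Set.ncard_image_le (Set.toFinite _)
    have h7 : ((PM h c : Subgroup S.G) : Set S.G).ncard = Nat.card (PM h c) := rfl
    have h8 : vs S c = {v : S.G | O S c v}.ncard := rfl
    omega
  have hPt : PM h c ≠ ⊤ := by
    intro htop
    rw [htop, Subgroup.card_top] at hPc
    omega
  have hun := union_le h hPt hW
  obtain ⟨p, hp⟩ := f4_list (hF (S.neg * c) (fun e => hcn (cb1 h e (by simp only [mul_comm, mul_left_comm, mul_assoc, h.exp2, cancelL h, mul_one, one_mul])))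
    (fun e => hc1 (cb1 h e (by simp only [mul_comm, mul_left_comm, mul_assoc, h.exp2, cancelL h, mul_one, one_mul]))) (fun e => hn1 (cb1 h e (by simp only [mul_comm, mul_left_comm, mul_assoc, h.exp2, cancelL h, mul_one, one_mul]))))
  have hcc : S.neg * (S.neg * c) = c := cancelL h _ _
  rw [hcc] at hp
  have ncM : O S c (S.neg * c) := oneg h c
  have inPM : ∀ g, (g = 1 ∨ g = c) → g ∈ PM h c := by
    rintro g (rfl | rfl)
    · exact Subgroup.one_mem _
    · rw [mem_PM]
      exact Or.inr ncM
  have hsub : (Set.univ : Set S.G) ⊆ ((PM h c : Set S.G) ∪ (PM h S.neg : Set S.G)) ∪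
      (({p, c * p, S.neg * p, S.neg * (c * p)} : Finset S.G) : Set S.G) := by
    intro g _
    rcases cov g with k | k | k | k
    · exact Or.inl (Or.inl k)
    · exact Or.inl (Or.inr k.2)
    · rcases hp g (osymm h k) with e | e | e | e
      · exact Or.inl (Or.inl (inPM g (Or.inl e)))
      · exact Or.inl (Or.inl (inPM g (Or.inr e)))
      · right; rw [e]; simp
      · right; rw [e]; simp
    · have k' : ∀ w, S.neg * g = w → g = S.neg * w := by
        rintro w rfl
        exact (cancelL h _ _).symm
      rcases hp _ (osymm h k) with e | e | e | e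
      · refine Or.inl (Or.inl ?_)
        rw [k' _ e, mul_one, SetLike.mem_coe, mem_PM]
        right
        rw [h.exp2]
        exact o_one h c
      · refine Or.inl (Or.inl ?_)
        rw [k' _ e]
        exact Or.inl ncM
      · right; rw [k' _ e]; simp
      · right; rw [k' _ e]; simp
  have h5 := (Set.ncard_le_ncard hsub (Set.toFinite _)).trans (Set.ncard_union_le _ _)
  rw [Set.ncard_univ, Set.ncard_coe_finset] at h5
  have := Finset.card_le_four (a := p) (b := c * p) (c := S.neg * p) (d := S.neg * (c * p))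
  omega

end one

/-- all value groups `V(a)`, `a ≠ 1, -1`, but at most one have at most four elements -/
theorem elem_one : ∀ n : ℕ, ∀ S : QData, IsQuat S → Finite S.G → Nat.card S.G ≤ n →
    ∀ c : S.G, (∀ a : S.G, a ≠ 1 → a ≠ S.neg → a ≠ c → vs S a ≤ 4) → Elem S := by
  intro n
  induction n with
  | zero =>
    intro S h hf hc
    have : 0 < Nat.card S.G := Nat.card_pos
    omega
  | succ n ih =>
    intro S h hf hc c hN
    by_cases hc4 : c = 1 ∨ c = S.neg ∨ vs S c ≤ 4
    · refine elem_four _ S h hf le_rfl fun a h1 h2 => ?_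
      by_cases hac : a = c
      · subst hac
        rcases hc4 with h3 | h3 | h3
        · exact absurd h3 h1
        · exact absurd h3 h2
        · exact h3
      · exact hN a h1 h2 hac
    push Not at hc4
    obtain ⟨hc1, hcn, hc4⟩ := hc4
    have hc8 : 8 ≤ vs S c := by
      obtain ⟨j, hj⟩ := vs_pow h c
      rw [hj] at hc4 ⊢
      have : 2 < j := by
        by_contra hj2
        have : 2 ^ j ≤ 2 ^ 2 := Nat.pow_le_pow_right (by norm_num) (by omega)
        omega
      calc 8 = 2 ^ 3 := by norm_num
        _ ≤ 2 ^ j := Nat.pow_le_pow_right (by norm_num) this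
    by_cases hG : Nat.card S.G < 32
    · exact elem_small h hG
    by_cases hb : ∃ b, Bi S b
    · obtain ⟨b, hb⟩ := hb
      obtain ⟨B, hB⟩ := Pool.Agent.Y67.ET.t_BASIC S h
      have hbB : b ∉ B := fun hc => (hB b).1 hc hb
      obtain ⟨K, hBK, hbK, hK⟩ := split h.exp2 B b hbB
      have hneg : S.neg ∈ K := hBK ((hB _).2 fun hb => hb.2.1 rfl)
      have hout : ∀ a : S.G, a ∉ K → Bi S a := fun a ha => by
        by_contra hc
        exact ha (hBK ((hB a).2 hc))
      have hcK : c ∈ K := by
        by_contra hcK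
        obtain ⟨-, -, h3, -⟩ := hout c hcK
        have hsub : {b : S.G | S.q c b = S.zero} ⊆ ({1, S.neg * c} : Set S.G) := by
          intro e he
          rcases h3 e he with h5 | h5
          · exact Or.inl h5
          · exact Or.inr h5
        have h5 := Set.ncard_le_ncard hsub (Set.toFinite _)
        have h6 : ({1, S.neg * c} : Set S.G).ncard ≤ 2 := Set.ncard_insert_le _ _ |>.trans (by
          rw [Set.ncard_singleton])
        have h7 : vs S c = {b : S.G | S.q c b = S.zero}.ncard := rfl
        omega
      obtain ⟨h1, h2⟩ := Pool.Agent.Y781.ET.t_EXT S h K b hneg hbK hK hout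
      have hc2 := card_two h K b hbK hK
      have hpos : 0 < Nat.card K := Nat.card_pos
      refine Elem.iso _ _ (Elem.ext _ (ih (restrN S K hneg) h1 (inferInstanceAs (Finite K)) ?_
        ⟨c, hcK⟩ ?_)) h2
      · show Nat.card K ≤ n
        omega
      · intro (a : K) ha ha' hac
        rw [vs_restrN h K hneg hout a ha]
        exact hN _ (fun e => ha (Subtype.ext e)) (fun e => ha' (Subtype.ext e))
          (fun e => hac (Subtype.ext e))
    · push Not at hb
      have hF : ∀ a : S.G, a ≠ 1 → a ≠ S.neg → a ≠ c → F4 S a :=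
        fun a h1 h2 h3 => f4_of_vs h h2 (hN a h1 h2 h3)
      have hI := no_bi_one h hc1 hcn hF hc8 (by omega) hb
      refine elem_half S h hf fun a h1 h2 => ?_
      by_cases hac : a = c
      · exact Or.inr (hac ▸ hI)
      · exact Or.inl (hN a h1 h2 hac)

end Pool.Agent.K3h83.ET
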